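import Pool.Agent.KS6_20.PS.Defs
set_option autoImplicit false
open Set Filter Topology Metric MeasureTheory
namespace Pool.Agent.KS6_20.PS
variable {n : ℕ}


theorem curve_mean_ge (g : (E n) → ℝ) (hg : ContDiff ℝ 2 g) (p b b' : (E n))
    (hp : ∃ r > 0, ∀ b : (E n), ‖b‖ ≤ r → g p ≤ cm g p b) :
    ∃ C : ℝ, ∀ᶠ t : ℝ in 𝓝[>] (0:ℝ), g p - C * t ^ 3 ≤
      (2 * Real.pi)⁻¹ * ∫ θ in (0:ℝ)..(2 * Real.pi),
        g (p + ((t : ℂ) * Complex.exp ((θ : ℂ) * Complex.I)) • b +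
          ((t : ℂ) * Complex.exp ((θ : ℂ) * Complex.I)) ^ 2 • b') := by
  obtain ⟨r, hr, hcm⟩ := hp
  have hf1 : ContDiff ℝ 1 (fderiv ℝ g) := hg.fderiv_right (by norm_num)
  obtain ⟨K, s, hs, hLip⟩ := (hf1.contDiffAt (x := p)).exists_lipschitzOnWith
  obtain ⟨ρ, hρ, hball⟩ := Metric.mem_nhds_iff.1 hs
  have hgc : Continuous g := hg.continuous
  have hgd : Differentiable ℝ g := hg.differentiable (by norm_num)
  set L := fderiv ℝ g p with hL
  have hB : 0 ≤ ‖b‖ := norm_nonneg b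
  have hB' : 0 ≤ ‖b'‖ := norm_nonneg b'
  have hK : (0 : ℝ) ≤ K := K.2
  refine ⟨K * (‖b‖ + ‖b'‖) * ‖b'‖, ?_⟩
  have hmem : Ioo (0 : ℝ) (min 1 (min (ρ / (‖b‖ + ‖b'‖ + 1)) (r / (‖b‖ + 1)))) ∈ 𝓝[>] (0 : ℝ) :=
    Ioo_mem_nhdsGT (lt_min one_pos (lt_min (by positivity) (by positivity)))
  filter_upwards [hmem] with t ht
  obtain ⟨ht0, ht'⟩ := ht
  rw [lt_min_iff, lt_min_iff, lt_div_iff₀ (by positivity), lt_div_iff₀ (by positivity)] at ht'
  obtain ⟨ht1, htρ, htr⟩ := ht'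
  have hexp : ∀ θ : ℝ, ‖Complex.exp ((θ : ℂ) * Complex.I)‖ = 1 := fun θ =>
    Complex.norm_exp_ofReal_mul_I θ
  have hζ : ∀ θ : ℝ, ‖(t : ℂ) * Complex.exp ((θ : ℂ) * Complex.I)‖ = t := by
    intro θ
    rw [norm_mul, hexp, mul_one, Complex.norm_real, Real.norm_of_nonneg ht0.le]
  -- pointwise bound
  have hpt : ∀ θ : ℝ, g (p + ((t : ℂ) * Complex.exp ((θ : ℂ) * Complex.I)) • b) +
      L (((t : ℂ) * Complex.exp ((θ : ℂ) * Complex.I)) ^ 2 • b') -
        K * (‖b‖ + ‖b'‖) * ‖b'‖ * t ^ 3 ≤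
      g (p + ((t : ℂ) * Complex.exp ((θ : ℂ) * Complex.I)) • b +
          ((t : ℂ) * Complex.exp ((θ : ℂ) * Complex.I)) ^ 2 • b') := by
    intro θ
    set ζ : ℂ := (t : ℂ) * Complex.exp ((θ : ℂ) * Complex.I) with hζd
    have hz : ‖ζ‖ = t := hζ θ
    have h1 : ‖ζ • b‖ = t * ‖b‖ := by rw [norm_smul, hz]
    have h2 : ‖ζ ^ 2 • b'‖ = t ^ 2 * ‖b'‖ := by rw [norm_smul, norm_pow, hz]
    have h3 : t ^ 2 * ‖b'‖ ≤ t * ‖b'‖ := by
      apply mul_le_mul_of_nonneg_right _ hB'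
      nlinarith
    have hbound : ∀ y ∈ closedBall p (t * (‖b‖ + ‖b'‖)), ‖fderiv ℝ g y - L‖ ≤
        K * (t * (‖b‖ + ‖b'‖)) := by
      intro y hy
      rw [mem_closedBall] at hy
      have hyB : y ∈ s := hball (mem_ball.2 (lt_of_le_of_lt hy (by nlinarith)))
      have hpB : p ∈ s := hball (mem_ball_self hρ)
      have h4 := hLip.dist_le_mul y hyB p hpB
      rw [dist_eq_norm] at h4
      refine h4.trans (mul_le_mul_of_nonneg_left hy hK)
    have h5 := Convex.norm_image_sub_le_of_norm_fderiv_le' (𝕜 := ℝ) (f := g) (φ := L)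
      (s := closedBall p (t * (‖b‖ + ‖b'‖))) (x := p + ζ • b) (y := p + ζ • b + ζ ^ 2 • b')
      (fun y _ => hgd y) hbound (convex_closedBall _ _)
      (by
        rw [mem_closedBall, dist_eq_norm, add_sub_cancel_left, h1]
        nlinarith)
      (by
        rw [mem_closedBall, dist_eq_norm, add_assoc, add_sub_cancel_left]
        refine (norm_add_le _ _).trans ?_
        rw [h1, h2]
        linarith)
    rw [add_sub_cancel_left, h2, Real.norm_eq_abs] at h5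
    have h6 := (abs_le.1 h5).1
    have h7 : K * (t * (‖b‖ + ‖b'‖)) * (t ^ 2 * ‖b'‖) = K * (‖b‖ + ‖b'‖) * ‖b'‖ * t ^ 3 := by ring
    rw [h7] at h6
    linarith
  -- continuity
  have hc1 : Continuous fun θ : ℝ => g (p + ((t : ℂ) * Complex.exp ((θ : ℂ) * Complex.I)) • b) :=
    hgc.comp (by fun_prop)
  have hc2' : Continuous fun θ : ℝ => ((t : ℂ) * Complex.exp ((θ : ℂ) * Complex.I)) ^ 2 • b' := by
    fun_prop
  have hc2 : Continuous fun θ : ℝ => L (((t : ℂ) * Complex.exp ((θ : ℂ) * Complex.I)) ^ 2 • b') :=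
    L.continuous.comp hc2'
  have hc3 : Continuous fun θ : ℝ => g (p + ((t : ℂ) * Complex.exp ((θ : ℂ) * Complex.I)) • b +
          ((t : ℂ) * Complex.exp ((θ : ℂ) * Complex.I)) ^ 2 • b') :=
    hgc.comp (by fun_prop)
  have h2pi : (0 : ℝ) < 2 * Real.pi := by positivity
  have hc12 : Continuous fun θ : ℝ => g (p + ((t : ℂ) * Complex.exp ((θ : ℂ) * Complex.I)) • b) +
      L (((t : ℂ) * Complex.exp ((θ : ℂ) * Complex.I)) ^ 2 • b') := hc1.add hc2
  have hc123 : Continuous fun θ : ℝ => g (p + ((t : ℂ) * Complex.exp ((θ : ℂ) * Complex.I)) • b) +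
      L (((t : ℂ) * Complex.exp ((θ : ℂ) * Complex.I)) ^ 2 • b') -
        K * (‖b‖ + ‖b'‖) * ‖b'‖ * t ^ 3 := hc12.sub continuous_const
  have hmono := intervalIntegral.integral_mono_on (μ := volume) h2pi.le
    (hc123.intervalIntegrable 0 (2 * Real.pi))
    (hc3.intervalIntegrable 0 (2 * Real.pi)) (fun θ _ => hpt θ)
  rw [intervalIntegral.integral_sub (hc12.intervalIntegrable _ _)
      (continuous_const.intervalIntegrable _ _),
    intervalIntegral.integral_add (hc1.intervalIntegrable _ _) (hc2.intervalIntegrable _ _),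
    intervalIntegral.integral_const] at hmono
  -- the linear term vanishes
  have hlin : ∫ θ in (0:ℝ)..(2 * Real.pi),
      L (((t : ℂ) * Complex.exp ((θ : ℂ) * Complex.I)) ^ 2 • b') = 0 := by
    rw [L.intervalIntegral_comp_comm (hc2'.intervalIntegrable _ _)]
    have h8 : ∫ θ in (0:ℝ)..(2 * Real.pi),
        ((t : ℂ) * Complex.exp ((θ : ℂ) * Complex.I)) ^ 2 • b' =
        (∫ θ in (0:ℝ)..(2 * Real.pi), ((t : ℂ) * Complex.exp ((θ : ℂ) * Complex.I)) ^ 2) • b' :=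
      intervalIntegral.integral_smul_const _ _
    have h9 : ∫ θ in (0:ℝ)..(2 * Real.pi), ((t : ℂ) * Complex.exp ((θ : ℂ) * Complex.I)) ^ 2 = 0 := by
      have e : ∀ θ : ℝ, ((t : ℂ) * Complex.exp ((θ : ℂ) * Complex.I)) ^ 2 =
          (t : ℂ) ^ 2 * Complex.exp ((2 * Complex.I) * (θ : ℂ)) := by
        intro θ
        rw [mul_pow, ← Complex.exp_nat_mul]
        congr 2
        push_cast; ring
      simp_rw [e]
      rw [intervalIntegral.integral_const_mul, integral_exp_mul_complex (by simp)]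
      have e2 : Complex.exp (2 * Complex.I * ((2 * Real.pi : ℝ) : ℂ)) = 1 := by
        rw [Complex.exp_eq_one_iff]
        exact ⟨2, by push_cast; ring⟩
      rw [e2]
      simp
    rw [h8, h9, zero_smul, map_zero]
  rw [hlin, add_zero, smul_eq_mul, sub_zero] at hmono
  -- the circle mean
  have hcirc := hcm ((t : ℂ) • b) (by
    rw [norm_smul, Complex.norm_real, Real.norm_of_nonneg ht0.le]
    nlinarith)
  unfold cm at hcirc
  have e3 : (∫ θ in (0:ℝ)..(2 * Real.pi), g (p + Complex.exp ((θ : ℂ) * Complex.I) • (t : ℂ) • b)) =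
      ∫ θ in (0:ℝ)..(2 * Real.pi), g (p + ((t : ℂ) * Complex.exp ((θ : ℂ) * Complex.I)) • b) := by
    apply intervalIntegral.integral_congr
    intro θ _
    show g _ = g _
    rw [smul_smul, mul_comm]
  rw [e3] at hcirc
  have h10 := mul_le_mul_of_nonneg_left hmono (inv_nonneg.2 h2pi.le)
  have h11 : (2 * Real.pi)⁻¹ * (2 * Real.pi * (K * (‖b‖ + ‖b'‖) * ‖b'‖ * t ^ 3)) =
      K * (‖b‖ + ‖b'‖) * ‖b'‖ * t ^ 3 := by
    rw [← mul_assoc, inv_mul_cancel₀ h2pi.ne', one_mul]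
  rw [mul_sub, h11] at h10
  linarith

end Pool.Agent.KS6_20.PS
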