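import Pool.Graph.R_seed8.Bl169.Final
set_option autoImplicit false
open Set Filter Topology Metric MeasureTheory

namespace Pool.Agent.KS6_20.PS

/-- `n`-dimensional complex coordinate space -/
abbrev E (n : ℕ) : Type := Fin n → ℂ

variable {n : ℕ}

/-- mean over the circle `a + e^{iθ} b` -/
noncomputable def cm (u : (E n) → ℝ) (a b : (E n)) : ℝ :=
  (2 * Real.pi)⁻¹ * ∫ θ in (0:ℝ)..(2 * Real.pi), u (a + Complex.exp ((θ : ℂ) * Complex.I) • b)

/-- continuous, real valued, sub-mean value inequality on all closed affine discs in `U` -/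
def CPsh (U : Set (E n)) (u : (E n) → ℝ) : Prop :=
  ContinuousOn u U ∧ ∀ a b : (E n), (∀ z : ℂ, ‖z‖ ≤ 1 → a + z • b ∈ U) → u a ≤ cm u a b

def FPsh (U : Set (E n)) (u : (E n) → EReal) : Prop :=
  UpperSemicontinuousOn u U ∧ (∀ x ∈ U, u x ≠ ⊤) ∧
    ∀ a b : (E n), (∀ z : ℂ, ‖z‖ ≤ 1 → a + z • b ∈ U) →
      ∀ M : ℝ, u a ≤
        ((((2 * Real.pi)⁻¹ *
          ∫ θ in (0:ℝ)..(2 * Real.pi),
            (max (u (a + Complex.exp ((θ : ℂ) * Complex.I) • b)) (M : EReal)).toReal) : ℝ) : EReal)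

end Pool.Agent.KS6_20.PS
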