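import Pool.Agent.KS6_20.PS.CurveGe
set_option autoImplicit false
open Set Filter Topology Metric MeasureTheory
namespace Pool.Agent.KS6_20.PS
variable {n : ℕ}



theorem curve_mean_sq (p b b' : (E n)) (t : ℝ) :
    (2 * Real.pi)⁻¹ * ∫ θ in (0:ℝ)..(2 * Real.pi),
        (∑ i, ‖(p + ((t : ℂ) * Complex.exp ((θ : ℂ) * Complex.I)) • b +
          ((t : ℂ) * Complex.exp ((θ : ℂ) * Complex.I)) ^ 2 • b') i‖ ^ 2) =
      (∑ i, ‖p i‖ ^ 2) + t ^ 2 * (∑ i, ‖b i‖ ^ 2) +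
        t ^ 4 * (∑ i, ‖b' i‖ ^ 2) := by
  have h : ∀ (θ : ℝ) (i : Fin n), ‖(p + ((t : ℂ) * Complex.exp ((θ : ℂ) * Complex.I)) • b +
          ((t : ℂ) * Complex.exp ((θ : ℂ) * Complex.I)) ^ 2 • b') i‖ ^ 2 =
      ‖p i + ((t : ℂ) * Complex.exp ((θ : ℂ) * Complex.I)) * b i +
          ((t : ℂ) * Complex.exp ((θ : ℂ) * Complex.I)) ^ 2 * b' i‖ ^ 2 := fun θ i => rfl
  simp_rw [h, Pool.Agent.Bl169.coord_sq_aux]
  have hpi : (2 * Real.pi) ≠ 0 := by positivity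
  rw [intervalIntegral.integral_finset_sum]
  · simp_rw [Pool.Agent.Bl169.trig_int_aux]
    rw [← Finset.mul_sum, ← mul_assoc, inv_mul_cancel₀ hpi, one_mul, Finset.sum_add_distrib,
      Finset.sum_add_distrib, Finset.mul_sum, Finset.mul_sum]
  · intro i _
    apply Continuous.intervalIntegrable
    fun_prop

/-- TARGET -/
theorem no_touch (g : (E n) → ℝ) (hg : ContDiff ℝ 2 g) (p : (E n))
    (hp : ∃ r > 0, ∀ b : (E n), ‖b‖ ≤ r → g p ≤ cm g p b) (η : ℝ) (hη : 0 < η) (w : (E n) → ℝ)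
    (hwc : ∀ᶠ x in 𝓝 p, ContinuousAt w x)
    (hmax : ∀ᶠ x in 𝓝 p, g x + η * (∑ i, ‖x i‖ ^ 2) - w x ≤
        g p + η * (∑ i, ‖p i‖ ^ 2) - w p)
    (b b' : (E n)) (hb : b ≠ 0) (C : ℝ)
    (hcurve : ∀ᶠ t : ℝ in 𝓝[>] (0:ℝ), (2 * Real.pi)⁻¹ * ∫ θ in (0:ℝ)..(2 * Real.pi),
        w (p + ((t : ℂ) * Complex.exp ((θ : ℂ) * Complex.I)) • b +
          ((t : ℂ) * Complex.exp ((θ : ℂ) * Complex.I)) ^ 2 • b') ≤ w p + C * t ^ 3) : False := by
  obtain ⟨C1, hC1⟩ := curve_mean_ge g hg p b b' hp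
  obtain ⟨δ, hδ, hball⟩ := Metric.eventually_nhds_iff_ball.1 (hwc.and hmax)
  have hnb : 0 < ∑ i, ‖b i‖ ^ 2 := by
    obtain ⟨i, hi⟩ := Function.ne_iff.1 hb
    have h1 : 0 < ‖b i‖ ^ 2 := by
      have : 0 < ‖b i‖ := norm_pos_iff.2 hi
      positivity
    exact lt_of_lt_of_le h1
      (Finset.single_le_sum (f := fun i => ‖b i‖ ^ 2) (fun i _ => by positivity) (Finset.mem_univ i))
  -- smallness
  have hsmall : ∀ᶠ t : ℝ in 𝓝[>] (0:ℝ), t * ‖b‖ + t ^ 2 * ‖b'‖ < δ := by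
    have hc : Continuous fun t : ℝ => t * ‖b‖ + t ^ 2 * ‖b'‖ := by fun_prop
    have := hc.tendsto 0
    simp only [zero_mul, ne_eq, OfNat.ofNat_ne_zero, not_false_eq_true, zero_pow, add_zero] at this
    exact (this.mono_left nhdsWithin_le_nhds).eventually (gt_mem_nhds hδ)
  have hsmall2 : ∀ᶠ t : ℝ in 𝓝[>] (0:ℝ), (C1 + C) * t < η * (∑ i, ‖b i‖ ^ 2) := by
    have hc : Continuous fun t : ℝ => (C1 + C) * t := by fun_prop
    have := hc.tendsto 0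
    simp only [mul_zero] at this
    exact (this.mono_left nhdsWithin_le_nhds).eventually (gt_mem_nhds (by positivity))
  obtain ⟨t, ⟨⟨⟨h1, h2⟩, h3⟩, h4⟩, ht⟩ :=
    ((((hC1.and hcurve).and hsmall).and hsmall2).and self_mem_nhdsWithin).exists
  have ht : 0 < t := ht
  set γ : ℝ → (E n) := fun θ => p + ((t : ℂ) * Complex.exp ((θ : ℂ) * Complex.I)) • b +
          ((t : ℂ) * Complex.exp ((θ : ℂ) * Complex.I)) ^ 2 • b' with hγ
  have hγc : Continuous γ := by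
    rw [hγ]; fun_prop
  have hγb : ∀ θ, γ θ ∈ ball p δ := by
    intro θ
    rw [mem_ball, dist_eq_norm]
    have e : γ θ - p = ((t : ℂ) * Complex.exp ((θ : ℂ) * Complex.I)) • b +
          ((t : ℂ) * Complex.exp ((θ : ℂ) * Complex.I)) ^ 2 • b' := by
      simp only [hγ]; abel
    rw [e]
    have hn : ‖(t : ℂ) * Complex.exp ((θ : ℂ) * Complex.I)‖ = t := by
      rw [norm_mul, Complex.norm_exp_ofReal_mul_I, mul_one, Complex.norm_real, Real.norm_eq_abs,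
        abs_of_pos ht]
    calc _ ≤ ‖((t : ℂ) * Complex.exp ((θ : ℂ) * Complex.I)) • b‖ +
          ‖((t : ℂ) * Complex.exp ((θ : ℂ) * Complex.I)) ^ 2 • b'‖ := norm_add_le _ _
      _ = t * ‖b‖ + t ^ 2 * ‖b'‖ := by rw [norm_smul, norm_smul, norm_pow, hn]
      _ < δ := h3
  have hwγ : Continuous fun θ => w (γ θ) := by
    rw [continuous_iff_continuousAt]
    intro θ
    exact ContinuousAt.comp (hball _ (hγb θ)).1 hγc.continuousAt
  have hgγ : Continuous fun θ => g (γ θ) := hg.continuous.comp hγc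
  have hq : Continuous fun θ => (∑ i, ‖(γ θ) i‖ ^ 2) := by
    refine continuous_finset_sum _ fun i _ => ?_
    have h0 : Continuous fun θ => (γ θ) i := (continuous_apply i).comp hγc
    fun_prop
  have hpi : (0:ℝ) < 2 * Real.pi := by positivity
  have hint : ∫ θ in (0:ℝ)..(2 * Real.pi), (g (γ θ) + η * (∑ i, ‖(γ θ) i‖ ^ 2) - w (γ θ))
      ≤ ∫ θ in (0:ℝ)..(2 * Real.pi), (g p + η * (∑ i, ‖p i‖ ^ 2) - w p) := by
    apply intervalIntegral.integral_mono_on hpi.le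
    · exact (((hgγ.add (hq.const_mul η)).sub hwγ)).intervalIntegrable _ _
    · exact continuous_const.intervalIntegrable _ _
    · intro θ _
      exact (hball _ (hγb θ)).2
  have hgq : Continuous fun θ => g (γ θ) + η * (∑ i, ‖(γ θ) i‖ ^ 2) :=
    hgγ.add (continuous_const.mul hq)
  have hqq : Continuous fun θ => η * (∑ i, ‖(γ θ) i‖ ^ 2) := continuous_const.mul hq
  rw [intervalIntegral.integral_sub (hgq.intervalIntegrable _ _)
    (hwγ.intervalIntegrable _ _), intervalIntegral.integral_add (hgγ.intervalIntegrable _ _)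
    (hqq.intervalIntegrable _ _), intervalIntegral.integral_const_mul,
    intervalIntegral.integral_const] at hint
  have hsq := curve_mean_sq p b b' t
  change (2 * Real.pi)⁻¹ * ∫ θ in (0:ℝ)..(2 * Real.pi), (∑ i, ‖(γ θ) i‖ ^ 2) = _ at hsq
  change g p - C1 * t ^ 3 ≤ (2 * Real.pi)⁻¹ * ∫ θ in (0:ℝ)..(2 * Real.pi), g (γ θ) at h1
  change (2 * Real.pi)⁻¹ * ∫ θ in (0:ℝ)..(2 * Real.pi), w (γ θ) ≤ w p + C * t ^ 3 at h2
  have hint2 := mul_le_mul_of_nonneg_left hint (inv_nonneg.2 hpi.le)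
  rw [sub_zero, smul_eq_mul, ← mul_assoc, inv_mul_cancel₀ hpi.ne', one_mul] at hint2
  have e3 : (2 * Real.pi)⁻¹ * (((∫ θ in (0:ℝ)..(2 * Real.pi), g (γ θ)) +
      η * ∫ θ in (0:ℝ)..(2 * Real.pi), (∑ i, ‖(γ θ) i‖ ^ 2)) -
      ∫ θ in (0:ℝ)..(2 * Real.pi), w (γ θ)) =
      ((2 * Real.pi)⁻¹ * ∫ θ in (0:ℝ)..(2 * Real.pi), g (γ θ)) +
      η * ((2 * Real.pi)⁻¹ * ∫ θ in (0:ℝ)..(2 * Real.pi), (∑ i, ‖(γ θ) i‖ ^ 2)) -
      ((2 * Real.pi)⁻¹ * ∫ θ in (0:ℝ)..(2 * Real.pi), w (γ θ)) := by ring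
  rw [e3, hsq] at hint2
  have hk : η * (t ^ 2 * (∑ i, ‖b i‖ ^ 2)) + η * (t ^ 4 * (∑ i, ‖b' i‖ ^ 2))
      ≤ (C1 + C) * t ^ 3 := by nlinarith
  have hk2 : 0 ≤ η * (t ^ 4 * (∑ i, ‖b' i‖ ^ 2)) := by positivity
  have hk3 : η * (t ^ 2 * (∑ i, ‖b i‖ ^ 2)) ≤ (C1 + C) * t ^ 3 := by linarith
  have hk4 : t ^ 2 * (η * (∑ i, ‖b i‖ ^ 2)) ≤ t ^ 2 * ((C1 + C) * t) := by
    calc _ = η * (t ^ 2 * (∑ i, ‖b i‖ ^ 2)) := by ring
      _ ≤ (C1 + C) * t ^ 3 := hk3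
      _ = _ := by ring
  have hk5 := le_of_mul_le_mul_left hk4 (by positivity)
  linarith

end Pool.Agent.KS6_20.PS
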