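import Pool.Agent.KS6_20.PS.Touch
import Pool.Agent.KS6_20.PS.NoTouch
import Pool.Agent.KS6_20.PS.Inf
set_option autoImplicit false
open Set Filter Topology Metric MeasureTheory
namespace Pool.Agent.KS6_20.PS

variable {n : ℕ}

theorem cpsh_log_max_aux (V : (E n) → ℝ) (hV : Continuous V) (hpos : ∀ x, 0 < V x) (K : (E n) → ℂ)
    (hK : ∀ x, AnalyticAt ℂ K x) (hle : ∀ x, ‖K x‖ ≤ V x) (a b : (E n)) (ha : ‖K a‖ = V a) :
    Real.log (V a) ≤ cm (fun x => Real.log (V x)) a b := by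
  have h1 : ∀ z : ℂ, AnalyticAt ℂ (fun z : ℂ => K (a + z • b)) z := by
    intro z
    have h2 : AnalyticAt ℂ (fun z : ℂ => a + z • b) z :=
      analyticAt_const.add (analyticAt_id.smul analyticAt_const)
    exact (hK _).comp h2
  have hc : Continuous fun z : ℂ => V (a + z • b) := hV.comp (by fun_prop)
  have h3 := Pool.Agent.Bl169.log_norm_le (fun z : ℂ => K (a + z • b)) h1
    (fun z => V (a + z • b)) hc
    (fun z => hpos _) (fun z => hle _) (by
      simp only [zero_smul, add_zero]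
      rw [← norm_pos_iff, ha]
      exact hpos a)
  simp only [zero_smul, add_zero] at h3
  rw [ha] at h3
  refine h3.trans (le_of_eq ?_)
  rw [Real.circleAverage, cm, smul_eq_mul]
  congr 1
  apply intervalIntegral.integral_congr
  intro θ _
  simp [circleMap]

theorem cpsh_of_attained (U : Set (E n)) (V : (E n) → ℝ) (hV : Continuous V)
    (hpos : ∀ x, 0 < V x)
    (h : ∀ a, ∃ K : (E n) → ℂ, (∀ x, AnalyticAt ℂ K x) ∧ (∀ x, ‖K x‖ ≤ V x) ∧ ‖K a‖ = V a) :
    CPsh U (fun x => Real.log (V x)) := by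
  refine ⟨(hV.log fun x => (hpos x).ne').continuousOn, fun a b _ => ?_⟩
  obtain ⟨K, h1, h2, h3⟩ := h a
  exact cpsh_log_max_aux V hV hpos K h1 h2 a b h3

variable {k : ℕ}

/-- the first two coordinates -/
def pr (x : E (k + 2)) : Pool.Agent.Bl169.E := ![x 0, x 1]

/-- the other coordinates -/
def tl (x : E (k + 2)) : E k := fun i => x i.succ.succ

/-- the point with given first two coordinates and given other coordinates -/
def mk (y : Pool.Agent.Bl169.E) (q : E k) : E (k + 2) := Matrix.vecCons (y 0) (Matrix.vecCons (y 1) q)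

lemma pr_mk (y : Pool.Agent.Bl169.E) (q : E k) : pr (mk y q) = y := by
  funext i
  fin_cases i
  · rfl
  · rfl

lemma tl_mk (y : Pool.Agent.Bl169.E) (q : E k) : tl (mk y q) = q := by
  funext i
  rfl

lemma pr_curve (p b b' : E (k + 2)) (z : ℂ) :
    pr (p + z • b + z ^ 2 • b') = pr p + z • pr b + z ^ 2 • pr b' := by
  funext i
  fin_cases i
  · rfl
  · rfl

lemma tl_curve (p b b' : E (k + 2)) (z : ℂ) :
    tl (p + z • b + z ^ 2 • b') = tl p + z • tl b + z ^ 2 • tl b' := by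
  funext i
  rfl

lemma pr_line (a b : E (k + 2)) (z : ℂ) : pr (a + z • b) = pr a + z • pr b := by
  funext i
  fin_cases i
  · rfl
  · rfl

lemma an_pr (x : E (k + 2)) : AnalyticAt ℂ (pr (k := k)) x := by
  refine AnalyticAt.pi fun i => ?_
  fin_cases i
  · exact (ContinuousLinearMap.proj (R := ℂ) (φ := fun _ : Fin (k + 2) => ℂ) 0).analyticAt x
  · exact (ContinuousLinearMap.proj (R := ℂ) (φ := fun _ : Fin (k + 2) => ℂ) 1).analyticAt x

lemma cont_pr : Continuous (pr (k := k)) :=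
  continuous_iff_continuousAt.2 fun x => (an_pr x).continuousAt

lemma cont_tl : Continuous (tl (k := k)) :=
  continuous_pi fun i => continuous_apply i.succ.succ

lemma an_coord (i : Fin k) (x : E (k + 2)) : AnalyticAt ℂ (fun x : E (k + 2) => tl x i) x :=
  (ContinuousLinearMap.proj (R := ℂ) (φ := fun _ : Fin (k + 2) => ℂ) i.succ.succ).analyticAt x

lemma exists_coord (q : E k) (hq : 0 < ‖q‖) : ∃ i, ‖q i‖ = ‖q‖ := by
  by_contra hcon
  push Not at hcon
  have h : ∀ i, ‖q i‖ < ‖q‖ := fun i => lt_of_le_of_ne (norm_le_pi_norm q i) (hcon i)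
  exact lt_irrefl _ ((pi_norm_lt_iff hq).2 h)

/-- `D⁻¹ log max (W, t ^ D)` -/
noncomputable def LL (D : ℕ) (W t : ℝ) : ℝ := (D : ℝ)⁻¹ * Real.log (max W (t ^ D))

lemma LL_le_iff {D : ℕ} (hD : 0 < D) {W t : ℝ} (hW : 0 < W) (ht : 0 ≤ t) (c : ℝ) :
    LL D W t ≤ c ↔ (D : ℝ)⁻¹ * Real.log W ≤ c ∧ t ≤ Real.exp c := by
  have hD' : (0 : ℝ) < D := by exact_mod_cast hD
  unfold LL
  rw [inv_mul_le_iff₀ hD', inv_mul_le_iff₀ hD', Real.log_le_iff_le_exp (lt_max_of_lt_left hW),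
    Real.log_le_iff_le_exp hW, max_le_iff]
  refine and_congr_right fun _ => ?_
  rw [Real.exp_nat_mul, pow_le_pow_iff_left₀ ht (Real.exp_pos _).le hD.ne']

/-- the function `max (ww j (x₀, x₁), log max |x_i|)` -/
noncomputable def ph (j : ℕ) (x : E (k + 2)) : ℝ :=
  LL (Pool.Agent.Bl169.DD j) (Pool.Agent.Bl169.WW j (pr x)) ‖tl x‖

/-- the competitors -/
noncomputable def vp (j : ℕ) (x : E (k + 2)) : ℝ :=
  LL 1 (Real.exp (Pool.Agent.Bl169.vv j (pr x))) ‖tl x‖

lemma ww_le_ph (j : ℕ) (x : E (k + 2)) : Pool.Agent.Bl169.ww j (pr x) ≤ ph j x :=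
  ((LL_le_iff (Pool.Agent.Bl169.DD_pos j) (Pool.Agent.Bl169.WW_pos j _) (norm_nonneg _) _).1
    le_rfl).1

lemma tl_le_ph (j : ℕ) (x : E (k + 2)) : ‖tl x‖ ≤ Real.exp (ph j x) :=
  ((LL_le_iff (Pool.Agent.Bl169.DD_pos j) (Pool.Agent.Bl169.WW_pos j _) (norm_nonneg _) _).1
    le_rfl).2

lemma ph_le_iff (j : ℕ) (x : E (k + 2)) (c : ℝ) :
    ph j x ≤ c ↔ Pool.Agent.Bl169.ww j (pr x) ≤ c ∧ ‖tl x‖ ≤ Real.exp c :=
  LL_le_iff (Pool.Agent.Bl169.DD_pos j) (Pool.Agent.Bl169.WW_pos j _) (norm_nonneg _) c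

lemma vp_le_iff (j : ℕ) (x : E (k + 2)) (c : ℝ) :
    vp j x ≤ c ↔ Pool.Agent.Bl169.vv j (pr x) ≤ c ∧ ‖tl x‖ ≤ Real.exp c := by
  unfold vp
  rw [LL_le_iff one_pos (Real.exp_pos _) (norm_nonneg _) c]
  simp

lemma ph_anti (j : ℕ) (x : E (k + 2)) (hx : pr x ∈ Pool.Agent.Bl169.Om) :
    ph (j + 1) x ≤ ph j x :=
  (ph_le_iff (j + 1) x _).2
    ⟨(Pool.Agent.Bl169.ww_anti j _ hx).trans (ww_le_ph j x), tl_le_ph j x⟩

lemma vp_anti (j : ℕ) (x : E (k + 2)) (hx : pr x ∈ Pool.Agent.Bl169.Om) :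
    vp (j + 1) x ≤ vp j x := by
  have h := (vp_le_iff j x _).1 le_rfl
  exact (vp_le_iff (j + 1) x _).2 ⟨(Pool.Agent.Bl169.vv_anti j _ hx).trans h.1, h.2⟩

lemma cpsh_ph (U : Set (E (k + 2))) (j : ℕ) : CPsh U (ph j) := by
  have hcont : Continuous fun x : E (k + 2) =>
      max (Pool.Agent.Bl169.WW j (pr x)) (‖tl x‖ ^ Pool.Agent.Bl169.DD j) :=
    ((Pool.Agent.Bl169.contW j).comp cont_pr).max (cont_tl.norm.pow _)
  have hpos : ∀ x : E (k + 2),
      0 < max (Pool.Agent.Bl169.WW j (pr x)) (‖tl x‖ ^ Pool.Agent.Bl169.DD j) := fun x =>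
    lt_max_of_lt_left (Pool.Agent.Bl169.WW_pos j _)
  have h := cpsh_of_attained U _ hcont hpos (by
    intro a
    rcases le_total (‖tl a‖ ^ Pool.Agent.Bl169.DD j) (Pool.Agent.Bl169.WW j (pr a)) with h | h
    · have h3 : Pool.Agent.Bl169.WW j (pr a) = ‖Pool.Agent.Bl169.fA j (pr a)‖ ∨
          Pool.Agent.Bl169.WW j (pr a) = ‖Pool.Agent.Bl169.fB j (pr a)‖ ∨
          Pool.Agent.Bl169.WW j (pr a) = ‖Pool.Agent.Bl169.fC j (pr a)‖ := by
        unfold Pool.Agent.Bl169.WW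
        rcases max_choice (max ‖Pool.Agent.Bl169.fA j (pr a)‖ ‖Pool.Agent.Bl169.fB j (pr a)‖)
          ‖Pool.Agent.Bl169.fC j (pr a)‖ with h1 | h1
        · rw [h1]
          rcases max_choice ‖Pool.Agent.Bl169.fA j (pr a)‖ ‖Pool.Agent.Bl169.fB j (pr a)‖
            with h2 | h2
          · exact Or.inl h2
          · exact Or.inr (Or.inl h2)
        · exact Or.inr (Or.inr h1)
      rcases h3 with h3 | h3 | h3
      · refine ⟨fun x => Pool.Agent.Bl169.fA j (pr x),
          fun x => (Pool.Agent.Bl169.anA j _).comp (an_pr x),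
          fun x => (Pool.Agent.Bl169.A_le j _).trans (le_max_left _ _), ?_⟩
        show ‖Pool.Agent.Bl169.fA j (pr a)‖ = _
        rw [max_eq_left h, h3]
      · refine ⟨fun x => Pool.Agent.Bl169.fB j (pr x),
          fun x => (Pool.Agent.Bl169.anB j _).comp (an_pr x),
          fun x => (Pool.Agent.Bl169.B_le j _).trans (le_max_left _ _), ?_⟩
        show ‖Pool.Agent.Bl169.fB j (pr a)‖ = _
        rw [max_eq_left h, h3]
      · refine ⟨fun x => Pool.Agent.Bl169.fC j (pr x),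
          fun x => (Pool.Agent.Bl169.anC j _).comp (an_pr x),
          fun x => (Pool.Agent.Bl169.C_le j _).trans (le_max_left _ _), ?_⟩
        show ‖Pool.Agent.Bl169.fC j (pr a)‖ = _
        rw [max_eq_left h, h3]
    · have h4 : 0 < ‖tl a‖ := by
        have h5 : 0 < ‖tl a‖ ^ Pool.Agent.Bl169.DD j :=
          lt_of_lt_of_le (Pool.Agent.Bl169.WW_pos j _) h
        by_contra hcon
        have h6 : ‖tl a‖ = 0 := le_antisymm (not_lt.1 hcon) (norm_nonneg _)
        rw [h6, zero_pow (Pool.Agent.Bl169.DD_pos j).ne'] at h5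
        exact lt_irrefl _ h5
      obtain ⟨i, hi⟩ := exists_coord _ h4
      refine ⟨fun x => (tl x i) ^ Pool.Agent.Bl169.DD j, fun x => (an_coord i x).pow _,
        fun x => ?_, ?_⟩
      · rw [norm_pow]
        exact (pow_le_pow_left₀ (norm_nonneg _) (norm_le_pi_norm (tl x) i) _).trans
          (le_max_right _ _)
      · rw [norm_pow, hi, max_eq_right h])
  exact cpsh_smul U _ h _ (inv_nonneg.2 (Nat.cast_nonneg _))

lemma cpsh_vp (U : Set (E (k + 2))) (j : ℕ) : CPsh U (vp j) := by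
  have hv := Pool.Agent.Bl169.cpsh_vv univ j
  have hvc : Continuous (Pool.Agent.Bl169.vv j) := continuousOn_univ.1 hv.1
  have hcont : Continuous fun x : E (k + 2) =>
      max (Real.exp (Pool.Agent.Bl169.vv j (pr x))) ‖tl x‖ :=
    ((hvc.comp cont_pr).rexp).max cont_tl.norm
  have hpos : ∀ x : E (k + 2),
      0 < max (Real.exp (Pool.Agent.Bl169.vv j (pr x))) ‖tl x‖ := fun x =>
    lt_max_of_lt_left (Real.exp_pos _)
  have he : (vp j : E (k + 2) → ℝ) = fun x => Real.log (max (Real.exp (Pool.Agent.Bl169.vv j (pr x))) ‖tl x‖) := by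
    funext x
    simp [vp, LL]
  rw [he]
  have hlc : Continuous fun x : E (k + 2) =>
      Real.log (max (Real.exp (Pool.Agent.Bl169.vv j (pr x))) ‖tl x‖) :=
    hcont.log fun x => (hpos x).ne'
  refine ⟨hlc.continuousOn, fun a b _ => ?_⟩
  rcases le_total ‖tl a‖ (Real.exp (Pool.Agent.Bl169.vv j (pr a))) with h | h
  · have h1 := hv.2 (pr a) (pr b) (fun z _ => mem_univ _)
    show Real.log (max (Real.exp (Pool.Agent.Bl169.vv j (pr a))) ‖tl a‖) ≤ _
    rw [max_eq_left h, Real.log_exp]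
    refine h1.trans ?_
    unfold cm Pool.Agent.Bl169.cm
    refine mul_le_mul_of_nonneg_left ?_ (by positivity)
    have hcirc : Continuous fun θ : ℝ => a + Complex.exp ((θ : ℂ) * Complex.I) • b := by fun_prop
    have hcirc2 : Continuous fun θ : ℝ => pr a + Complex.exp ((θ : ℂ) * Complex.I) • pr b := by
      fun_prop
    refine intervalIntegral.integral_mono_on (by positivity)
      ((hvc.comp hcirc2).intervalIntegrable _ _) ((hlc.comp hcirc).intervalIntegrable _ _)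
      fun θ _ => ?_
    show _ ≤ Real.log (max (Real.exp (Pool.Agent.Bl169.vv j
      (pr (a + Complex.exp ((θ : ℂ) * Complex.I) • b))))
      ‖tl (a + Complex.exp ((θ : ℂ) * Complex.I) • b)‖)
    rw [pr_line]
    calc Pool.Agent.Bl169.vv j (pr a + Complex.exp ((θ : ℂ) * Complex.I) • pr b)
        = Real.log (Real.exp (Pool.Agent.Bl169.vv j
            (pr a + Complex.exp ((θ : ℂ) * Complex.I) • pr b))) := (Real.log_exp _).symm
      _ ≤ _ := Real.log_le_log (Real.exp_pos _) (le_max_left _ _)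
  · have h4 : 0 < ‖tl a‖ := lt_of_lt_of_le (Real.exp_pos _) h
    obtain ⟨i, hi⟩ := exists_coord _ h4
    exact cpsh_log_max_aux _ hcont hpos (fun x => tl x i) (an_coord i)
      (fun x => (norm_le_pi_norm (tl x) i).trans (le_max_right _ _)) a b
      (by show ‖tl a i‖ = _; rw [hi, max_eq_right h])

end Pool.Agent.KS6_20.PS
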