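import Pool.Agent.KS6_20.PS.Model
set_option autoImplicit false
open Set Filter Topology Metric MeasureTheory
namespace Pool.Agent.KS6_20.PS

open Pool.Agent.Bl169 (Om KK xx xx_mem fA fB fC ww vv WW DD eps)

variable {k : ℕ}

/-- scaling vector -/
noncomputable def cc (s : ℂ) : E (k + 2) :=
  Matrix.vecCons (1 / 2) (Matrix.vecCons (1 / 2) (fun _ => s))

/-- inverse scaling vector -/
noncomputable def ci (s : ℂ) : E (k + 2) :=
  Matrix.vecCons 2 (Matrix.vecCons 2 (fun _ => s⁻¹))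

lemma cc_ci (s : ℂ) (hs : s ≠ 0) : cc s * ci s = (1 : E (k + 2)) := by
  funext i
  refine Fin.cases ?_ (fun i => ?_) i
  · show (1 / 2 : ℂ) * 2 = 1
    norm_num
  · refine Fin.cases ?_ (fun i => ?_) i
    · show (1 / 2 : ℂ) * 2 = 1
      norm_num
    · show s * s⁻¹ = 1
      exact mul_inv_cancel₀ hs

lemma pr_cc_zero (s : ℂ) (x : E (k + 2)) : pr (cc s * x) 0 = 1 / 2 * x 0 := rfl
lemma pr_cc_one (s : ℂ) (x : E (k + 2)) : pr (cc s * x) 1 = 1 / 2 * x 1 := rfl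
lemma ci_zero (s : ℂ) (y : E (k + 2)) : (ci s * y : E (k + 2)) 0 = 2 * pr y 0 := rfl
lemma ci_one (s : ℂ) (y : E (k + 2)) : (ci s * y : E (k + 2)) 1 = 2 * pr y 1 := rfl
lemma tl_ci (s : ℂ) (y : E (k + 2)) : tl (ci s * y) = s⁻¹ • tl y := rfl

theorem main (Ω : Set (E (k + 2))) (hΩ : IsOpen Ω) (h1 : ∀ x ∈ Ω, ‖x 0‖ < 1 ∧ ‖x 1‖ < 1)
    (h2 : ∀ x : E (k + 2), ‖x 0‖ ≤ 1 / 2 → ‖x 1‖ ≤ 1 / 2 → (∀ i : Fin k, x i.succ.succ = 0) →
      x ∈ Ω) :
    ∃ φ : E (k + 2) → EReal, FPsh Ω φ ∧ (∃ x ∈ Ω, φ x ≠ ⊥) ∧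
      (∃ Ω₁ Ω₂ : Set (E (k + 2)), IsOpen Ω₁ ∧ IsOpen Ω₂ ∧ Ω₁ ∪ Ω₂ = Ω ∧
        (∀ U : Set (E (k + 2)), IsOpen U → U ⊆ Ω₁ → FMax U φ) ∧
        (∀ U : Set (E (k + 2)), IsOpen U → U ⊆ Ω₂ → FMax U φ)) ∧
      ¬ FMax Ω φ := by
  -- a compact slice
  set S : Set (E (k + 2)) := {x | ‖x 0‖ ≤ 1 / 2 ∧ ‖x 1‖ ≤ 1 / 2 ∧ tl x = 0} with hS
  have hc0 : Continuous fun x : E (k + 2) => ‖x 0‖ := (continuous_apply 0).norm
  have hc1 : Continuous fun x : E (k + 2) => ‖x 1‖ := (continuous_apply 1).norm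
  have hScl : IsClosed S := by
    have e : S = {x | ‖x 0‖ ≤ 1 / 2} ∩ ({x | ‖x 1‖ ≤ 1 / 2} ∩ {x | tl x = 0}) := rfl
    rw [e]
    exact (isClosed_le hc0 continuous_const).inter ((isClosed_le hc1 continuous_const).inter
      (isClosed_eq cont_tl continuous_const))
  have hSc : IsCompact S := by
    apply Metric.isCompact_of_isClosed_isBounded hScl
    refine (isBounded_closedBall (x := (0 : E (k + 2))) (r := 1)).subset fun x hx => ?_
    obtain ⟨h3, h4, h5⟩ := hx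
    rw [mem_closedBall_zero_iff, pi_norm_le_iff_of_nonneg zero_le_one]
    intro i
    refine Fin.cases ?_ (fun i => ?_) i
    · linarith
    · refine Fin.cases ?_ (fun i => ?_) i
      · have h4' : ‖x (Fin.succ 0)‖ ≤ 1 / 2 := h4
        linarith
      · have h6 : x i.succ.succ = 0 := congrFun h5 i
        rw [h6, norm_zero]
        exact zero_le_one
  have hSΩ : S ⊆ Ω := fun x hx => h2 x hx.1 hx.2.1 (fun i => congrFun hx.2.2 i)
  obtain ⟨δ, hδ, hδΩ⟩ := hSc.exists_cthickening_subset_open hΩ hSΩ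
  set m : ℝ := Real.exp (-(20 * Real.log 4)) with hm
  have hm0 : 0 < m := Real.exp_pos _
  set s : ℂ := ((m / δ : ℝ) : ℂ) with hs
  have hs0 : s ≠ 0 := by
    rw [hs]
    exact_mod_cast (div_pos hm0 hδ).ne'
  have hsn : ‖s⁻¹‖ = δ / m := by
    rw [norm_inv, hs, Complex.norm_real, Real.norm_eq_abs, abs_of_pos (div_pos hm0 hδ), inv_div]
  set c : E (k + 2) := cc s with hc
  set c' : E (k + 2) := ci s with hc'
  have hcc : c * c' = 1 := cc_ci s hs0
  have hcc' : c' * c = 1 := by rw [mul_comm]; exact hcc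
  have hcont' : Continuous fun y : E (k + 2) => c' * y := continuous_const.mul continuous_id
  set Ω' : Set (E (k + 2)) := {y | c' * y ∈ Ω} with hΩ'
  have hback : ∀ x, c' * (c * x) = x := fun x => by rw [← mul_assoc, hcc', one_mul]
  have hback' : ∀ x, c * (c' * x) = x := fun x => by rw [← mul_assoc, hcc, one_mul]
  have hset : ∀ U : Set (E (k + 2)), {x | c * x ∈ {y | c' * y ∈ U}} = U := by
    intro U
    ext x
    show c' * (c * x) ∈ U ↔ x ∈ U
    rw [hback]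
  have hOm : ∀ y ∈ Ω', pr y ∈ Om := by
    intro y hy
    have h3 := h1 _ hy
    have h4 : ‖(c' * y) 0‖ = 2 * ‖pr y 0‖ := by
      rw [hc', ci_zero, norm_mul]; norm_num
    have h5 : ‖(c' * y) 1‖ = 2 * ‖pr y 1‖ := by
      rw [hc', ci_one, norm_mul]; norm_num
    rw [h4, h5] at h3
    exact ⟨by linarith [h3.1], by linarith [h3.2]⟩
  have hK : Kc ⊆ Ω' := by
    intro y hy
    obtain ⟨⟨h3, h4⟩, h5⟩ := hy
    apply hδΩ
    have hz : mk (pr (c' * y)) (0 : E k) ∈ S := by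
      refine ⟨?_, ?_, tl_mk _ _⟩
      · show ‖(c' * y) 0‖ ≤ 1 / 2
        rw [hc', ci_zero, norm_mul, Complex.norm_ofNat]
        linarith
      · show ‖(c' * y) 1‖ ≤ 1 / 2
        rw [hc', ci_one, norm_mul, Complex.norm_ofNat]
        linarith
    apply mem_cthickening_of_dist_le _ _ _ _ hz
    rw [dist_eq_norm, pi_norm_le_iff_of_nonneg hδ.le]
    intro i
    refine Fin.cases ?_ (fun i => ?_) i
    · show ‖(c' * y) 0 - (c' * y) 0‖ ≤ δ
      rw [sub_self, norm_zero]; exact hδ.le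
    · refine Fin.cases ?_ (fun i => ?_) i
      · show ‖(c' * y) 1 - (c' * y) 1‖ ≤ δ
        rw [sub_self, norm_zero]; exact hδ.le
      · show ‖(c' * y) i.succ.succ - 0‖ ≤ δ
        rw [sub_zero]
        refine (norm_le_pi_norm (tl (c' * y)) i).trans ?_
        rw [hc', tl_ci, norm_smul, hsn]
        calc δ / m * ‖tl y‖ ≤ δ / m * m := mul_le_mul_of_nonneg_left h5 (by positivity)
          _ = δ := by field_simp
  have hpr0 : ∀ x, ‖pr (c * x) 0‖ = 1 / 2 * ‖x 0‖ := by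
    intro x
    rw [hc, pr_cc_zero, norm_mul]; norm_num
  have hOmx : ∀ x ∈ Ω, pr (c * x) ∈ Om := fun x hx => hOm _ (by
    show c' * (c * x) ∈ Ω
    rw [hback]; exact hx)
  have hlt : (1 / 4 : ℝ) ^ 600 < (1 / 4 : ℝ) ^ 500 :=
    pow_lt_pow_right_of_lt_one₀ (by norm_num) (by norm_num) (by norm_num)
  have hopen' : ∀ U : Set (E (k + 2)), IsOpen U → IsOpen {y | c' * y ∈ U} := fun U hU =>
    hU.preimage hcont'
  refine ⟨fun x => Ph (c * x), ?_, ?_, ?_, ?_⟩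
  · have h3 := fpsh_comp c Ω' Ph (fpsh_Ph Ω' hOm)
    rw [hΩ', hset] at h3
    exact h3
  · refine ⟨c' * mk xx 0, hK mk_xx_mem, ?_⟩
    show Ph (c * (c' * mk xx 0)) ≠ ⊥
    rw [hback']
    intro hb
    have h3 := le_Ph_xx (k := k)
    rw [hb, le_bot_iff] at h3
    exact EReal.coe_ne_bot _ h3
  · refine ⟨Ω ∩ {x | (1 / 4 : ℝ) ^ 600 < 1 / 2 * ‖x 0‖}, Ω ∩ {x | 1 / 2 * ‖x 0‖ < (1 / 4 : ℝ) ^ 500},
      hΩ.inter (isOpen_lt continuous_const (continuous_const.mul hc0)),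
      hΩ.inter (isOpen_lt (continuous_const.mul hc0) continuous_const), ?_, ?_, ?_⟩
    · ext x
      constructor
      · rintro (h | h)
        · exact h.1
        · exact h.1
      · intro hx
        by_cases h : (1 / 4 : ℝ) ^ 600 < 1 / 2 * ‖x 0‖
        · exact Or.inl ⟨hx, h⟩
        · exact Or.inr ⟨hx, lt_of_le_of_lt (not_lt.1 h) hlt⟩
    · intro U hU hUs
      have h3 := fmax_comp c c' hcc {y | c' * y ∈ U} Ph
        (fmax_one _ (hopen' U hU) (fun y hy => hOm y (hUs hy).1) (fun y hy => by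
          have h4 : (1 / 4 : ℝ) ^ 600 < 1 / 2 * ‖(c' * y) 0‖ := (hUs hy).2
          rw [← hpr0, hback'] at h4
          exact h4))
      rw [hset] at h3
      exact h3
    · intro U hU hUs
      have h3 := fmax_comp c c' hcc {y | c' * y ∈ U} Ph
        (fmax_two _ (hopen' U hU) (fun y hy => hOm y (hUs hy).1) (fun y hy => by
          have h4 : 1 / 2 * ‖(c' * y) 0‖ < (1 / 4 : ℝ) ^ 500 := (hUs hy).2
          rw [← hpr0, hback'] at h4
          exact h4))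
      rw [hset] at h3
      exact h3
  · intro h
    have h3 := fmax_comp c' c hcc' Ω (fun x => Ph (c * x)) h
    have h4 : (fun y => Ph (c * (c' * y))) = (Ph : E (k + 2) → EReal) := by
      funext y
      rw [hback']
    rw [h4] at h3
    exact not_fmax Ω' hOm hK h3

end Pool.Agent.KS6_20.PS
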