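import Pool.Agent.KS6_20.PS.Roles
set_option autoImplicit false
open Set Filter Topology Metric MeasureTheory
namespace Pool.Agent.KS6_20.PS

open Pool.Agent.Bl169 (Om KK xx xx_mem fA fB fC ww vv WW DD eps)

variable {n : ℕ}

def FMax (U : Set (E n)) (φ : (E n) → EReal) : Prop :=
  FPsh U φ ∧ ∀ v : (E n) → EReal, FPsh U v →
    (∃ K : Set (E n), IsCompact K ∧ K ⊆ U ∧ ∀ x ∈ U \ K, v x ≤ φ x) → ∀ x ∈ U, v x ≤ φ x

variable {k : ℕ}

/-- the function in the model coordinates -/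
noncomputable def Ph (x : E (k + 2)) : EReal := ⨅ j, ((ph j x : ℝ) : EReal)

/-- the competitor in the model coordinates -/
noncomputable def Vp (x : E (k + 2)) : EReal := ⨅ j, ((vp j x : ℝ) : EReal)

lemma fpsh_Ph (U : Set (E (k + 2))) (hU : ∀ x ∈ U, pr x ∈ Om) : FPsh U Ph :=
  fpsh_iInf U ph (cpsh_ph U) (fun j x hx => ph_anti j x (hU x hx))

lemma fpsh_Vp (U : Set (E (k + 2))) (hU : ∀ x ∈ U, pr x ∈ Om) : FPsh U Vp :=
  fpsh_iInf U vp (cpsh_vp U) (fun j x hx => vp_anti j x (hU x hx))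

lemma ph_antitone (x : E (k + 2)) (hx : pr x ∈ Om) : Antitone (fun j => ph j x) :=
  antitone_nat_of_succ_le fun j => ph_anti j x hx

lemma fmax_of_seq (U : Set (E (k + 2))) (hU : IsOpen U) (hUO : ∀ x ∈ U, pr x ∈ Om)
    (s : ℕ → ℕ) (hs : ∀ j, j ≤ s j)
    (hno : ∀ j, ∀ x ∈ U, ¬ (‖fA (s j) (pr x)‖ = ‖fB (s j) (pr x)‖ ∧
      ‖fB (s j) (pr x)‖ = ‖fC (s j) (pr x)‖)) :
    FMax U Ph := by
  refine ⟨fpsh_Ph U hUO, fun v hv hK x hx => ?_⟩
  obtain ⟨K, hK, hKU, hvK⟩ := hK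
  refine le_iInf fun j => ?_
  have h := maximal_n U hU (fA (s j)) (fB (s j)) (fC (s j)) (Pool.Agent.Bl169.anA _)
    (Pool.Agent.Bl169.anB _) (Pool.Agent.Bl169.anC _) (Pool.Agent.Bl169.WW_pos (s j))
    (hno j) (DD (s j)) (Pool.Agent.Bl169.DD_pos (s j)) (ph (s j)) (fun y => rfl) v hv K hK hKU
    (fun y hy => (hvK y hy).trans (iInf_le _ (s j))) x hx
  refine h.trans ?_
  have h2 : ph (s j) x ≤ ph j x := ph_antitone x (hUO x hx) (hs j)
  exact_mod_cast h2

lemma fmax_one (U : Set (E (k + 2))) (hU : IsOpen U) (hUO : ∀ x ∈ U, pr x ∈ Om)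
    (h : ∀ x ∈ U, (1 / 4 : ℝ) ^ 600 < ‖pr x 0‖) : FMax U Ph :=
  fmax_of_seq U hU hUO (fun j => 2 * j) (fun j => by omega)
    (fun j y hy => Pool.Agent.Bl169.no_triple_even j (pr y) (hUO y hy) (h y hy))

lemma fmax_two (U : Set (E (k + 2))) (hU : IsOpen U) (hUO : ∀ x ∈ U, pr x ∈ Om)
    (h : ∀ x ∈ U, ‖pr x 0‖ < (1 / 4 : ℝ) ^ 500) : FMax U Ph :=
  fmax_of_seq U hU hUO (fun j => 2 * j + 1) (fun j => by omega)
    (fun j y hy => Pool.Agent.Bl169.no_triple_odd j (pr y) (hUO y hy) (h y hy))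

/-- the compact set outside which the competitor lies below -/
def Kc : Set (E (k + 2)) := {x | pr x ∈ KK ∧ ‖tl x‖ ≤ Real.exp (-(20 * Real.log 4))}

lemma isCompact_Kc : IsCompact (Kc (k := k)) := by
  apply Metric.isCompact_of_isClosed_isBounded
  · exact (Pool.Agent.Bl169.isCompact_KK.isClosed.preimage cont_pr).inter
      (isClosed_le cont_tl.norm continuous_const)
  · refine (isBounded_closedBall (x := (0 : E (k + 2))) (r := 1)).subset fun x hx => ?_
    obtain ⟨⟨h0, h1⟩, h2⟩ := hx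
    rw [mem_closedBall_zero_iff, pi_norm_le_iff_of_nonneg zero_le_one]
    have h3 : Real.exp (-(20 * Real.log 4)) ≤ 1 := by
      rw [Real.exp_le_one_iff]
      have : 0 ≤ Real.log 4 := Real.log_nonneg (by norm_num)
      linarith
    have h0' : ‖x 0‖ ≤ 1 / 4 := h0
    have h1' : ‖x 1‖ ≤ 1 / 4 := h1
    intro i
    refine Fin.cases ?_ (fun i => ?_) i
    · linarith
    · refine Fin.cases ?_ (fun i => ?_) i
      · have h1'' : ‖x (Fin.succ 0)‖ ≤ 1 / 4 := h1'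
        linarith
      · exact (norm_le_pi_norm (tl x) i).trans (h2.trans h3)

lemma Vp_le_Ph (x : E (k + 2)) (hx : pr x ∈ Om) (hK : x ∉ Kc) : Vp x ≤ Ph x := by
  by_cases h : pr x ∈ KK
  · have h1 : Real.exp (-(20 * Real.log 4)) < ‖tl x‖ := by
      by_contra hcon
      exact hK ⟨h, not_lt.1 hcon⟩
    refine le_iInf fun j => (iInf_le _ 0).trans ?_
    have h2 : vp 0 x ≤ ph j x := by
      rw [vp_le_iff]
      refine ⟨?_, tl_le_ph j x⟩
      have e1 : vv 0 (pr x) = -(20 * Real.log 4) := by simp [vv]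
      rw [e1]
      have h3 := h1.trans_le (tl_le_ph j x)
      exact (Real.exp_lt_exp.1 h3).le
    exact_mod_cast h2
  · refine iInf_mono fun j => ?_
    have h2 : vp j x ≤ ph j x := by
      rw [vp_le_iff]
      exact ⟨(Pool.Agent.Bl169.vv_le_ww j (pr x) ⟨hx, h⟩).trans (ww_le_ph j x), tl_le_ph j x⟩
    exact_mod_cast h2

lemma mk_xx_pr : pr (mk xx (0 : E k)) = xx := pr_mk _ _

lemma xx_mem_KK : xx ∈ KK := by
  have h := Pool.Agent.Bl169.eps_pos
  have h' := Pool.Agent.Bl169.eps_le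
  refine ⟨?_, ?_⟩
  · rw [Pool.Agent.Bl169.xx_zero]; simp
  · rw [Pool.Agent.Bl169.xx_one, Complex.norm_real, Real.norm_eq_abs, abs_of_pos (by linarith)]
    linarith

lemma mk_xx_mem : mk xx (0 : E k) ∈ Kc := by
  refine ⟨?_, ?_⟩
  · rw [mk_xx_pr]
    exact xx_mem_KK
  · rw [tl_mk, norm_zero]
    exact (Real.exp_pos _).le

lemma Ph_xx_le : Ph (mk xx (0 : E k)) ≤ ((Real.log eps : ℝ) : EReal) := by
  have heps := Pool.Agent.Bl169.eps_pos
  have h3 : ww 0 xx ≤ Real.log eps := by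
    have e2 : ww 0 xx = Real.log (WW 0 xx) := by simp [ww, DD]
    rw [e2]
    refine Real.log_le_log (Pool.Agent.Bl169.WW_pos 0 xx) ?_
    refine max_le (max_le ?_ ?_) ?_
    · rw [Pool.Agent.Bl169.fA0_xx, Complex.norm_real, Real.norm_eq_abs, abs_of_pos (by positivity)]
      linarith
    · rw [Pool.Agent.Bl169.fB0_xx, norm_zero]; exact heps.le
    · rw [Pool.Agent.Bl169.fC0_xx, Complex.norm_real, Real.norm_eq_abs, abs_of_pos heps]
  have h4 : ph 0 (mk xx (0 : E k)) ≤ Real.log eps := by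
    rw [ph_le_iff, mk_xx_pr, tl_mk, norm_zero]
    exact ⟨h3, (Real.exp_pos _).le⟩
  exact (iInf_le _ 0).trans (by exact_mod_cast h4)

lemma le_Vp_xx : ((Real.log eps + 1 : ℝ) : EReal) ≤ Vp (mk xx (0 : E k)) := by
  refine le_iInf fun n => ?_
  have h5 := Pool.Agent.Bl169.x0_sum n
    (fun j => (DD j : ℝ)⁻¹ * Real.log (max ‖(fA j xx - fB j xx) / 2‖ (Pool.Agent.Bl169.dl j)))
    (fun j => Pool.Agent.Bl169.x0_log j (Pool.Agent.Bl169.dl j) (Pool.Agent.Bl169.dl_pos j))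
  have h6 : Real.log eps + 1 ≤ vv n xx := by
    unfold Pool.Agent.Bl169.vv Pool.Agent.Bl169.tt
    linarith
  have h7 := ((vp_le_iff n (mk xx (0 : E k)) _).1 le_rfl).1
  rw [mk_xx_pr] at h7
  exact_mod_cast h6.trans h7

lemma le_Ph_xx : ((Real.log eps - 1 : ℝ) : EReal) ≤ Ph (mk xx (0 : E k)) := by
  refine le_iInf fun j => ?_
  have hj : Real.log eps - 1 ≤ ww j xx := by
    refine le_trans ?_ (Pool.Agent.Bl169.ww_anti j xx xx_mem)
    have h1 := (Pool.Agent.Bl169.x0_ratio j).2.2.2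
    have h3 := (Pool.Agent.Bl169.x0_ratio j).2.2.1
    have h2 : Real.log ‖fA (j + 1) xx‖ ≤ Real.log (WW (j + 1) xx) :=
      Real.log_le_log h3 (Pool.Agent.Bl169.A_le (j + 1) xx)
    have hD : (0 : ℝ) < DD (j + 1) := by exact_mod_cast Pool.Agent.Bl169.DD_pos (j + 1)
    have h4 : 0 ≤ Real.log 4 := Real.log_nonneg (by norm_num)
    unfold Pool.Agent.Bl169.ww
    rw [le_inv_mul_iff₀ hD]
    linarith
  have h7 := ww_le_ph j (mk xx (0 : E k))
  rw [mk_xx_pr] at h7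
  exact_mod_cast hj.trans h7

lemma not_fmax (Ω : Set (E (k + 2))) (hΩ : ∀ x ∈ Ω, pr x ∈ Om) (hK : Kc ⊆ Ω) : ¬ FMax Ω Ph := by
  rintro ⟨-, h⟩
  have h1 := h Vp (fpsh_Vp Ω hΩ) ⟨Kc, isCompact_Kc, hK, fun x hx => Vp_le_Ph x (hΩ x hx.1) hx.2⟩
    (mk xx 0) (hK mk_xx_mem)
  have h7 : ((Real.log eps + 1 : ℝ) : EReal) ≤ ((Real.log eps : ℝ) : EReal) :=
    le_Vp_xx.trans (h1.trans Ph_xx_le)
  rw [EReal.coe_le_coe_iff] at h7
  linarith

/-! ### diagonal changes of coordinates -/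

lemma fpsh_comp (c : E n) (U : Set (E n)) (u : E n → EReal) (h : FPsh U u) :
    FPsh {x | c * x ∈ U} (fun x => u (c * x)) := by
  have hc : Continuous fun x : E n => c * x := continuous_const.mul continuous_id
  refine ⟨?_, fun x hx => h.2.1 _ hx, fun a b hab M => ?_⟩
  · exact h.1.comp hc.continuousOn (fun x hx => hx)
  · have h1 := h.2.2 (c * a) (c * b) (fun z hz => by
      have h2 := hab z hz
      have h3 : c * (a + z • b) ∈ U := h2
      rwa [mul_add, mul_smul_comm] at h3) M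
    refine h1.trans (le_of_eq ?_)
    congr 3
    funext θ
    show _ = (max (u (c * (a + Complex.exp ((θ : ℂ) * Complex.I) • b))) (M : EReal)).toReal
    rw [mul_add, mul_smul_comm]

lemma fmax_comp (c c' : E n) (hcc : c * c' = 1) (U : Set (E n)) (u : E n → EReal) (h : FMax U u) :
    FMax {x | c * x ∈ U} (fun x => u (c * x)) := by
  have hc : Continuous fun x : E n => c * x := continuous_const.mul continuous_id
  refine ⟨fpsh_comp c U u h.1, fun v hv hK x hx => ?_⟩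
  obtain ⟨K, hK, hKU, hvK⟩ := hK
  have hv' := fpsh_comp c' {x | c * x ∈ U} v hv
  have e : {x | c' * x ∈ {x | c * x ∈ U}} = U := by
    ext y
    show c * (c' * y) ∈ U ↔ y ∈ U
    rw [← mul_assoc, hcc, one_mul]
  rw [e] at hv'
  have h1 := h.2 (fun x => v (c' * x)) hv' ⟨(fun x => c * x) '' K, hK.image hc, by
      rintro _ ⟨y, hy, rfl⟩
      exact hKU hy, fun y hy => by
      have h2 : c' * y ∈ {x | c * x ∈ U} \ K := by
        refine ⟨?_, fun hyK => hy.2 ⟨c' * y, hyK, ?_⟩⟩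
        · show c * (c' * y) ∈ U
          rw [← mul_assoc, hcc, one_mul]
          exact hy.1
        · show c * (c' * y) = y
          rw [← mul_assoc, hcc, one_mul]
      have h3 : v (c' * y) ≤ u (c * (c' * y)) := hvK _ h2
      rwa [← mul_assoc, hcc, one_mul] at h3⟩ (c * x) hx
  show v x ≤ u (c * x)
  have h4 : v (c' * (c * x)) ≤ u (c * x) := h1
  rwa [← mul_assoc, mul_comm c', hcc, one_mul] at h4

end Pool.Agent.KS6_20.PS
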