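import Pool.Agent.KS6_20.PS.Defs
set_option autoImplicit false
open Set Filter Topology Metric MeasureTheory
namespace Pool.Agent.KS6_20.PS
variable {n : ℕ}


private theorem moll_exp_cont : Continuous fun θ : ℝ => Complex.exp ((θ : ℂ) * Complex.I) := by
  fun_prop

private theorem moll_int (χ : (E n) → ℝ) (hχ : Continuous χ) (hχc : HasCompactSupport χ)
    (hχ0 : ∀ y, 0 ≤ χ y) (g : (E n) → ℝ) (hg : Measurable g) (C : ℝ) (hgC : ∀ x, |g x| ≤ C)
    (Q : (E n) → (E n)) (hQ : Continuous Q) : Integrable (fun y => g (Q y) * χ y) := by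
  have h1 : Integrable (fun y => C * χ y) := (hχ.integrable_of_hasCompactSupport hχc).const_mul C
  refine h1.mono' ?_ (Eventually.of_forall fun y => ?_)
  · exact ((hg.comp hQ.measurable).mul hχ.measurable).aestronglyMeasurable
  · rw [Real.norm_eq_abs, abs_mul, abs_of_nonneg (hχ0 y)]
    exact mul_le_mul_of_nonneg_right (hgC _) (hχ0 y)

private theorem moll_avg (χ : (E n) → ℝ) (hχ : Continuous χ) (hχc : HasCompactSupport χ)
    (hχ0 : ∀ y, 0 ≤ χ y) (g : (E n) → ℝ) (hg : Measurable g) (C : ℝ) (hgC : ∀ x, |g x| ≤ C)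
    (P : ℝ × (E n) → (E n)) (hP : Continuous P) (c : (E n) → ℝ) (hc : Integrable (fun y => c y * χ y))
    (h : ∀ y, χ y ≠ 0 → c y ≤ (2 * Real.pi)⁻¹ * ∫ θ in (0:ℝ)..(2 * Real.pi), g (P (θ, y))) :
    ∫ y, c y * χ y ≤ (2 * Real.pi)⁻¹ * ∫ θ in (0:ℝ)..(2 * Real.pi), ∫ y, g (P (θ, y)) * χ y := by
  have hpi : (0:ℝ) ≤ 2 * Real.pi := by positivity
  have hI : Integrable (fun q : ℝ × (E n) => g (P q) * χ q.2)
      ((volume.restrict (Ioc (0:ℝ) (2 * Real.pi))).prod (volume : Measure (E n))) := by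
    have h1 : Integrable (fun q : ℝ × (E n) => C * χ q.2)
        ((volume.restrict (Ioc (0:ℝ) (2 * Real.pi))).prod (volume : Measure (E n))) :=
      Integrable.mul_prod (f := fun _ : ℝ => C) (g := χ) (integrable_const C)
        (hχ.integrable_of_hasCompactSupport hχc)
    refine h1.mono' ?_ (Eventually.of_forall fun q => ?_)
    · exact ((hg.comp hP.measurable).mul
        (hχ.measurable.comp measurable_snd)).aestronglyMeasurable
    · rw [Real.norm_eq_abs, abs_mul, abs_of_nonneg (hχ0 q.2)]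
      exact mul_le_mul_of_nonneg_right (hgC _) (hχ0 q.2)
  have hswap : ∫ θ in (0:ℝ)..(2 * Real.pi), ∫ y, g (P (θ, y)) * χ y =
      ∫ y, (∫ θ in (0:ℝ)..(2 * Real.pi), g (P (θ, y)) * χ y) := by
    rw [intervalIntegral.integral_of_le hpi]
    rw [integral_integral_swap (f := fun θ y => g (P (θ, y)) * χ y) hI]
    congr 1
    funext y
    rw [intervalIntegral.integral_of_le hpi]
  have hI2 : Integrable (fun y => ∫ θ in (0:ℝ)..(2 * Real.pi), g (P (θ, y)) * χ y) := by
    have h1 := hI.integral_prod_right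
    refine h1.congr (Eventually.of_forall fun y => ?_)
    show (∫ θ in Ioc (0:ℝ) (2 * Real.pi), g (P (θ, y)) * χ y) =
      ∫ θ in (0:ℝ)..(2 * Real.pi), g (P (θ, y)) * χ y
    rw [intervalIntegral.integral_of_le hpi]
  rw [hswap, ← integral_const_mul]
  apply integral_mono hc (hI2.const_mul _)
  intro y
  show c y * χ y ≤ (2 * Real.pi)⁻¹ * ∫ θ in (0:ℝ)..(2 * Real.pi), g (P (θ, y)) * χ y
  rw [intervalIntegral.integral_mul_const, ← mul_assoc]
  by_cases hy : χ y = 0
  · rw [hy, mul_zero, mul_zero]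
  · exact mul_le_mul_of_nonneg_right (h y hy) (hχ0 y)

private theorem moll_rot (θ : ℝ) (f : (E n) → ℝ) :
    ∫ y, f (Complex.exp ((θ : ℂ) * Complex.I) • y) = ∫ y, f y := by
  have h1 : ∀ i : Fin n, MeasurePreserving (fun z : ℂ => Complex.exp ((θ : ℂ) * Complex.I) * z)
      (volume : Measure ℂ) volume := by
    intro _
    have h2 := (rotation (Circle.exp θ)).measurePreserving
    have h3 : (rotation (Circle.exp θ) : ℂ → ℂ) =
        fun z : ℂ => Complex.exp ((θ : ℂ) * Complex.I) * z := by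
      funext z
      rw [rotation_apply, Circle.coe_exp]
    rw [h3] at h2
    exact h2
  have h4 := measurePreserving_pi (fun _ : Fin n => (volume : Measure ℂ))
    (fun _ : Fin n => (volume : Measure ℂ)) h1
  have h5 : MeasurePreserving (fun y : (E n) => Complex.exp ((θ : ℂ) * Complex.I) • y)
      (volume : Measure (E n)) volume := h4
  exact h5.integral_comp (measurableEmbedding_const_smul₀ (Complex.exp_ne_zero _)) f

theorem moll (δ : ℝ) (hδ : 0 < δ) (χ : (E n) → ℝ) (hχ : ContDiff ℝ 2 χ) (hχc : HasCompactSupport χ)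
    (hχ0 : ∀ y, 0 ≤ χ y) (hχs : ∀ y, δ < ‖y‖ → χ y = 0)
    (hχr : ∀ (θ : ℝ) (y : (E n)), χ (Complex.exp ((θ : ℂ) * Complex.I) • y) = χ y)
    (hχ1 : ∫ y, χ y = 1)
    (g : (E n) → ℝ) (hg : Measurable g) (C : ℝ) (hgC : ∀ x, |g x| ≤ C)
    (S : Set (E n)) (hS : ∀ a b : (E n), (∀ z : ℂ, ‖z‖ ≤ 1 → a + z • b ∈ S) → g a ≤ cm g a b) :
    ContDiff ℝ 2 (fun x => ∫ y, g (x - y) * χ y) ∧
    (∀ a b : (E n), (∀ z : ℂ, ‖z‖ ≤ 1 → ∀ y : (E n), ‖y‖ ≤ δ → a + z • b - y ∈ S) →
      (∫ y, g (a - y) * χ y) ≤ cm (fun x => ∫ y, g (x - y) * χ y) a b) ∧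
    (∀ a : (E n), (∀ y : (E n), ‖y‖ ≤ δ → a - y ∈ S) → g a ≤ ∫ y, g (a - y) * χ y) ∧
    (∀ (a : (E n)) (m : ℝ), (∀ y : (E n), ‖y‖ ≤ δ → g (a - y) ≤ m) → (∫ y, g (a - y) * χ y) ≤ m) := by
  have hχcont := hχ.continuous
  have hsupp : ∀ y, χ y ≠ 0 → ‖y‖ ≤ δ := by
    intro y hy
    by_contra hcon
    exact hy (hχs y (not_le.1 hcon))
  have hmul : ∀ r : ℝ, ∫ y, r * χ y = r := by
    intro r
    rw [integral_const_mul, hχ1, mul_one]
  refine ⟨?_, ?_, ?_, ?_⟩
  · have hloc : LocallyIntegrable g (volume : Measure (E n)) := by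
      refine (locallyIntegrable_const C).mono hg.aestronglyMeasurable
        (Eventually.of_forall fun x => ?_)
      rw [Real.norm_eq_abs, Real.norm_eq_abs]
      exact (hgC x).trans (le_abs_self C)
    have h1 := hχc.contDiff_convolution_left (ContinuousLinearMap.lsmul ℝ ℝ) (μ := volume) hχ hloc
    have h2 : (fun x => ∫ y, g (x - y) * χ y) =
        MeasureTheory.convolution χ g (ContinuousLinearMap.lsmul ℝ ℝ) volume := by
      funext x
      rw [MeasureTheory.convolution_def]
      congr 1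
      funext y
      rw [ContinuousLinearMap.lsmul_apply, smul_eq_mul, mul_comm]
    rw [h2]
    exact h1
  · intro a b hab
    have h1 := moll_avg χ hχcont hχc hχ0 g hg C hgC
      (fun q => a + Complex.exp ((q.1 : ℂ) * Complex.I) • b - q.2) (by fun_prop)
      (fun y => g (a - y))
      (moll_int χ hχcont hχc hχ0 g hg C hgC (fun y => a - y) (by fun_prop)) (by
        intro y hy
        have h2 := hS (a - y) b (by
          intro z hz
          have h3 := hab z hz y (hsupp y hy)
          have h4 : a - y + z • b = a + z • b - y := by abel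
          rw [h4]
          exact h3)
        refine h2.trans (le_of_eq ?_)
        unfold cm
        congr 2
        funext θ
        congr 1
        abel)
    exact h1
  · intro a ha
    have h1 := moll_avg χ hχcont hχc hχ0 g hg C hgC
      (fun q => a - Complex.exp ((q.1 : ℂ) * Complex.I) • q.2) (by fun_prop)
      (fun _ => g a)
      ((hχcont.integrable_of_hasCompactSupport hχc).const_mul (g a)) (by
        intro y hy
        have h2 := hS a (-y) (by
          intro z hz
          have h3 := ha (z • y) (by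
            rw [norm_smul]
            calc ‖z‖ * ‖y‖ ≤ 1 * ‖y‖ := mul_le_mul_of_nonneg_right hz (norm_nonneg _)
              _ = ‖y‖ := one_mul _
              _ ≤ δ := hsupp y hy)
          rw [smul_neg, ← sub_eq_add_neg]
          exact h3)
        refine h2.trans (le_of_eq ?_)
        unfold cm
        congr 2
        funext θ
        rw [smul_neg, ← sub_eq_add_neg])
    rw [hmul] at h1
    refine h1.trans (le_of_eq ?_)
    have h2 : ∀ θ : ℝ, ∫ y, g (a - Complex.exp ((θ : ℂ) * Complex.I) • y) * χ y =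
        ∫ y, g (a - y) * χ y := by
      intro θ
      rw [← moll_rot θ (fun y => g (a - y) * χ y)]
      congr 1
      funext y
      rw [hχr θ y]
    show (2 * Real.pi)⁻¹ * ∫ θ in (0:ℝ)..(2 * Real.pi),
      ∫ y, g (a - Complex.exp ((θ : ℂ) * Complex.I) • y) * χ y = _
    simp only [h2]
    rw [intervalIntegral.integral_const, smul_eq_mul, sub_zero, ← mul_assoc,
      inv_mul_cancel₀ (by positivity), one_mul]
  · intro a m hm
    rw [← hmul m]
    apply integral_mono (moll_int χ hχcont hχc hχ0 g hg C hgC (fun y => a - y) (by fun_prop))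
      ((hχcont.integrable_of_hasCompactSupport hχc).const_mul m)
    intro y
    show g (a - y) * χ y ≤ m * χ y
    by_cases hy : χ y = 0
    · rw [hy, mul_zero, mul_zero]
    · exact mul_le_mul_of_nonneg_right (hm y (hsupp y hy)) (hχ0 y)

end Pool.Agent.KS6_20.PS
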