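import Pool.Agent.KS6_20.PS.Defs
set_option autoImplicit false
open Set Filter Topology Metric MeasureTheory
namespace Pool.Agent.KS6_20.PS

theorem taylor2 (m : ℂ → ℂ) (hm : AnalyticAt ℂ m 0) :
    ∃ a₁ a₂ : ℂ, ∃ C : ℝ, 0 ≤ C ∧
      ∀ᶠ ζ in 𝓝 (0:ℂ), ‖m ζ - (m 0 + a₁ * ζ + a₂ * ζ ^ 2)‖ ≤ C * ‖ζ‖ ^ 3 := by
  obtain ⟨ps, hps⟩ := hm
  have hO := hps.isBigO_sub_partialSum_pow 3
  obtain ⟨C, hC⟩ := hO.bound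
  refine ⟨ps.coeff 1, ps.coeff 2, |C|, abs_nonneg C, ?_⟩
  filter_upwards [hC] with ζ hζ
  have h0 : ps.coeff 0 = m 0 := hps.coeff_zero _
  have e : ps.partialSum 3 ζ = m 0 + ps.coeff 1 * ζ + ps.coeff 2 * ζ ^ 2 := by
    simp only [FormalMultilinearSeries.partialSum, Finset.sum_range_succ, Finset.sum_range_zero,
      zero_add, FormalMultilinearSeries.apply_eq_pow_smul_coeff, smul_eq_mul, pow_zero, one_mul,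
      pow_one, h0]
    ring
  rw [zero_add, e, norm_pow, norm_norm] at hζ
  refine hζ.trans ?_
  exact mul_le_mul_of_nonneg_right (le_abs_self C) (by positivity)

theorem root_poly (g : ℂ → ℂ) (hg : AnalyticAt ℂ g 0) (hg0 : g 0 ≠ 0) (D : ℕ) (hD : 0 < D) :
    ∃ a₁ a₂ : ℂ, ∃ C : ℝ, 0 ≤ C ∧ ∀ᶠ ζ in 𝓝 (0:ℂ), g ζ ≠ 0 ∧
      ‖1 + a₁ * ζ + a₂ * ζ ^ 2‖ ^ D * ‖g 0‖ ≤ ‖g ζ‖ * Real.exp (C * ‖ζ‖ ^ 3) := by
  have hD' : (D : ℂ) ≠ 0 := by exact_mod_cast hD.ne'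
  set m : ℂ → ℂ := fun ζ => Complex.exp ((D : ℂ)⁻¹ * Complex.log (g ζ / g 0)) with hm
  have hma : AnalyticAt ℂ m 0 := by
    have h1 : AnalyticAt ℂ (fun ζ => g ζ / g 0) 0 := hg.div_const
    have h2 : AnalyticAt ℂ (fun ζ => Complex.log (g ζ / g 0)) 0 := h1.clog (by
      rw [div_self hg0]; exact Complex.one_mem_slitPlane)
    exact (analyticAt_const.mul h2).cexp
  have hm0 : m 0 = 1 := by
    rw [hm]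
    simp only
    rw [div_self hg0, Complex.log_one, mul_zero, Complex.exp_zero]
  obtain ⟨a₁, a₂, C, hC, hev⟩ := taylor2 m hma
  rw [hm0] at hev
  have hgc : ContinuousAt g 0 := hg.continuousAt
  have hne : ∀ᶠ ζ in 𝓝 (0:ℂ), g ζ ≠ 0 := hgc.eventually_ne hg0
  have hhalf : ∀ᶠ ζ in 𝓝 (0:ℂ), 1 / 2 < ‖m ζ‖ := by
    have h1 : ContinuousAt (fun ζ => ‖m ζ‖) 0 := hma.continuousAt.norm
    refine h1.eventually (lt_mem_nhds ?_)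
    show 1 / 2 < ‖m 0‖
    rw [hm0, norm_one]; norm_num
  refine ⟨a₁, a₂, D * (2 * C), by positivity, ?_⟩
  filter_upwards [hev, hne, hhalf] with ζ h1 h2 h3
  refine ⟨h2, ?_⟩
  have h4 : ‖1 + a₁ * ζ + a₂ * ζ ^ 2‖ ≤ ‖m ζ‖ * Real.exp (2 * C * ‖ζ‖ ^ 3) := by
    have h5 : ‖1 + a₁ * ζ + a₂ * ζ ^ 2‖ ≤ ‖m ζ‖ + C * ‖ζ‖ ^ 3 := by
      have e : 1 + a₁ * ζ + a₂ * ζ ^ 2 = m ζ - (m ζ - (1 + a₁ * ζ + a₂ * ζ ^ 2)) := by ring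
      rw [e]
      exact (norm_sub_le _ _).trans (add_le_add_right h1 _)
    have h6 : C * ‖ζ‖ ^ 3 ≤ ‖m ζ‖ * (2 * C * ‖ζ‖ ^ 3) := by
      have h7 : 0 ≤ C * ‖ζ‖ ^ 3 := by positivity
      nlinarith
    have h8 := Real.add_one_le_exp (2 * C * ‖ζ‖ ^ 3)
    calc _ ≤ ‖m ζ‖ + C * ‖ζ‖ ^ 3 := h5
      _ ≤ ‖m ζ‖ * (2 * C * ‖ζ‖ ^ 3 + 1) := by rw [mul_add, mul_one]; linarith
      _ ≤ _ := mul_le_mul_of_nonneg_left h8 (norm_nonneg _)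
  have h5 : ‖m ζ‖ ^ D * ‖g 0‖ = ‖g ζ‖ := by
    rw [← norm_pow, ← norm_mul]
    congr 1
    rw [hm]
    simp only
    rw [← Complex.exp_nat_mul, ← mul_assoc, mul_inv_cancel₀ hD', one_mul,
      Complex.exp_log (div_ne_zero h2 hg0), div_mul_cancel₀ _ hg0]
  calc ‖1 + a₁ * ζ + a₂ * ζ ^ 2‖ ^ D * ‖g 0‖
      ≤ (‖m ζ‖ * Real.exp (2 * C * ‖ζ‖ ^ 3)) ^ D * ‖g 0‖ :=
        mul_le_mul_of_nonneg_right (pow_le_pow_left₀ (norm_nonneg _) h4 D) (norm_nonneg _)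
    _ = (‖m ζ‖ ^ D * ‖g 0‖) * Real.exp (2 * C * ‖ζ‖ ^ 3) ^ D := by ring
    _ = ‖g ζ‖ * Real.exp (D * (2 * C) * ‖ζ‖ ^ 3) := by
        rw [h5, ← Real.exp_nat_mul]
        congr 2
        ring

end Pool.Agent.KS6_20.PS
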