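import Pool.Agent.KS6_20.PS.Fun
import Pool.Agent.KS6_20.PS.Root
set_option autoImplicit false
open Set Filter Topology Metric MeasureTheory
namespace Pool.Agent.KS6_20.PS

variable {n : ℕ}

theorem mean_le_of_pointwise (w : (E n) → ℝ) (hw : Continuous w) (p b b' : E n) (g : ℂ → ℂ)
    (hg : ∀ ζ, AnalyticAt ℂ g ζ) (hg0 : g 0 ≠ 0) (c e C : ℝ)
    (hwp : w p = c * Real.log ‖g 0‖ + e)
    (hpt : ∀ᶠ ζ in 𝓝 (0:ℂ),
      w (p + ζ • b + ζ ^ 2 • b') ≤ c * Real.log ‖g ζ‖ + e + C * ‖ζ‖ ^ 3) :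
    ∀ᶠ t : ℝ in 𝓝[>] (0:ℝ), (2 * Real.pi)⁻¹ * ∫ θ in (0:ℝ)..(2 * Real.pi),
        w (p + ((t : ℂ) * Complex.exp ((θ : ℂ) * Complex.I)) • b +
          ((t : ℂ) * Complex.exp ((θ : ℂ) * Complex.I)) ^ 2 • b') ≤ w p + C * t ^ 3 := by
  have hgc : Continuous g := continuous_iff_continuousAt.2 fun x => (hg x).continuousAt
  have hne : ∀ᶠ ζ in 𝓝 (0:ℂ), g ζ ≠ 0 := hgc.continuousAt.eventually_ne hg0
  obtain ⟨δ, hδ, hδ'⟩ := Metric.eventually_nhds_iff.mp (hpt.and hne)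
  have hIoo : Ioo (0:ℝ) δ ∈ 𝓝[>] (0:ℝ) := Ioo_mem_nhdsGT hδ
  filter_upwards [hIoo] with t ht
  obtain ⟨ht0, htδ⟩ := ht
  set z : ℝ → ℂ := fun θ => (t : ℂ) * Complex.exp ((θ : ℂ) * Complex.I) with hz
  have hzn : ∀ θ, ‖z θ‖ = t := by
    intro θ
    rw [hz]
    simp only [norm_mul, Complex.norm_exp_ofReal_mul_I, mul_one, Complex.norm_real, Real.norm_eq_abs, abs_of_pos ht0]
  have hzc : Continuous z := by rw [hz]; fun_prop
  have hball : ∀ ζ : ℂ, ‖ζ‖ ≤ t → w (p + ζ • b + ζ ^ 2 • b') ≤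
      c * Real.log ‖g ζ‖ + e + C * ‖ζ‖ ^ 3 ∧ g ζ ≠ 0 := by
    intro ζ hζ
    exact hδ' (y := ζ) (by rw [dist_zero_right]; linarith)
  show (2 * Real.pi)⁻¹ * ∫ θ in (0:ℝ)..(2 * Real.pi), w (p + z θ • b + z θ ^ 2 • b') ≤ w p + C * t ^ 3
  have hcont1 : Continuous fun θ => w (p + z θ • b + z θ ^ 2 • b') := hw.comp (by fun_prop)
  have hcont2 : Continuous fun θ => Real.log ‖g (z θ)‖ := by
    refine Continuous.log (hgc.comp hzc).norm fun θ => ?_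
    exact (norm_pos_iff.2 (hball (z θ) (hzn θ).le).2).ne'
  have hcont3 : Continuous fun θ => c * Real.log ‖g (z θ)‖ + (e + C * t ^ 3) :=
    (continuous_const.mul hcont2).add continuous_const
  have hpi : (0:ℝ) < 2 * Real.pi := by positivity
  have hint := intervalIntegral.integral_mono_on (μ := volume) hpi.le
    (hcont1.intervalIntegrable 0 (2 * Real.pi))
    (hcont3.intervalIntegrable 0 (2 * Real.pi)) (fun θ _ => by
      have h := (hball (z θ) (hzn θ).le).1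
      rw [hzn θ] at h
      linarith)
  have hav : Real.circleAverage (fun ζ => Real.log ‖g ζ‖) 0 t = Real.log ‖g 0‖ :=
    AnalyticOnNhd.circleAverage_log_norm_of_ne_zero (R := t) (c := 0) (g := g)
      (fun u _ => hg u) (fun u hu => by
        rw [mem_closedBall_zero_iff, abs_of_pos ht0] at hu
        exact (hball u hu).2)
  have hav2 : (2 * Real.pi)⁻¹ * ∫ θ in (0:ℝ)..(2 * Real.pi), Real.log ‖g (z θ)‖ =
      Real.log ‖g 0‖ := by
    rw [← hav, Real.circleAverage_def, smul_eq_mul]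
    congr 1
    refine intervalIntegral.integral_congr (fun θ _ => ?_)
    show Real.log ‖g (z θ)‖ = Real.log ‖g (circleMap 0 t θ)‖
    rw [circleMap, zero_add]
  have hcont4 : Continuous fun θ => c * Real.log ‖g (z θ)‖ := continuous_const.mul hcont2
  have hsum : ∫ θ in (0:ℝ)..(2 * Real.pi), (c * Real.log ‖g (z θ)‖ + (e + C * t ^ 3)) =
      c * (∫ θ in (0:ℝ)..(2 * Real.pi), Real.log ‖g (z θ)‖) +
        (2 * Real.pi) * (e + C * t ^ 3) := by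
    rw [intervalIntegral.integral_add (hcont4.intervalIntegrable _ _)
      (continuous_const.intervalIntegrable _ _), intervalIntegral.integral_const_mul,
      intervalIntegral.integral_const, smul_eq_mul, sub_zero]
  rw [hsum] at hint
  have h1 := mul_le_mul_of_nonneg_left hint (inv_nonneg.2 hpi.le)
  have h2 : (2 * Real.pi)⁻¹ * (c * (∫ θ in (0:ℝ)..(2 * Real.pi), Real.log ‖g (z θ)‖) +
        (2 * Real.pi) * (e + C * t ^ 3)) =
      c * ((2 * Real.pi)⁻¹ * ∫ θ in (0:ℝ)..(2 * Real.pi), Real.log ‖g (z θ)‖) +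
        (e + C * t ^ 3) := by
    field_simp
  rw [h2, hav2] at h1
  rw [hwp]
  linarith

variable {k : ℕ}

theorem roles (F G H : Pool.Agent.Bl169.E → ℂ) (hF : ∀ x, AnalyticAt ℂ F x)
    (hG : ∀ x, AnalyticAt ℂ G x) (hH : ∀ x, AnalyticAt ℂ H x)
    (D : ℕ) (hD : 0 < D) (w : E (k + 2) → ℝ) (hwc : Continuous w)
    (hw : ∀ x, w x = (D : ℝ)⁻¹ * Real.log (max (max (max ‖F (pr x)‖ ‖G (pr x)‖) ‖H (pr x)‖)
      (‖tl x‖ ^ D)))
    (g : E (k + 2) → ℝ) (hg : ContDiff ℝ 2 g) (p : E (k + 2))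
    (hp : ∃ r > 0, ∀ b : E (k + 2), ‖b‖ ≤ r → g p ≤ cm g p b) (η : ℝ) (hη : 0 < η)
    (hmax : ∀ᶠ x in 𝓝 p, g x + η * (∑ i, ‖x i‖ ^ 2) - w x ≤
        g p + η * (∑ i, ‖p i‖ ^ 2) - w p)
    (htl : ‖tl p‖ ^ D ≤ max (max ‖F (pr p)‖ ‖G (pr p)‖) ‖H (pr p)‖)
    (hFG : ‖F (pr p)‖ ≤ ‖G (pr p)‖) (hHG : ‖H (pr p)‖ < ‖G (pr p)‖) : False := by
  have hHc : Continuous H := continuous_iff_continuousAt.2 fun x => (hH x).continuousAt
  have hGc : Continuous G := continuous_iff_continuousAt.2 fun x => (hG x).continuousAt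
  have hG0 : G (pr p) ≠ 0 := by
    intro h
    rw [h, norm_zero] at hHG
    exact absurd hHG (not_lt.2 (norm_nonneg _))
  have hGp : 0 < ‖G (pr p)‖ := norm_pos_iff.2 hG0
  rw [max_eq_right hFG, max_eq_left hHG.le] at htl
  set q0 : ℂ := F (pr p) / G (pr p) with hq0
  have hq1 : ‖q0‖ ≤ 1 := by rw [hq0, norm_div]; exact div_le_one_of_le₀ hFG (norm_nonneg _)
  obtain ⟨β, β', hβ, C, hC⟩ := Pool.Agent.Bl169.exists_curve (fun x => F x - q0 * G x) (pr p)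
    ((hF _).sub (analyticAt_const.mul (hG _))) (by
      show F (pr p) - q0 * G (pr p) = 0
      rw [hq0, div_mul_cancel₀ _ hG0, sub_self])
  set γ : ℂ → Pool.Agent.Bl169.E := fun ζ => pr p + ζ • β + ζ ^ 2 • β' with hγ
  have hγa : ∀ ζ, AnalyticAt ℂ γ ζ := fun ζ =>
    (analyticAt_const.add (analyticAt_id.smul analyticAt_const)).add ((analyticAt_id.pow 2).smul analyticAt_const)
  have hγc : Continuous γ := by
    rw [hγ]; fun_prop
  have hγ0 : γ 0 = pr p := by simp [hγ]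
  have hga : ∀ ζ, AnalyticAt ℂ (fun ζ => G (γ ζ)) ζ := fun ζ => (hG (γ ζ)).comp (hγa ζ)
  have hg0' : G (γ 0) ≠ 0 := by rw [hγ0]; exact hG0
  obtain ⟨a₁, a₂, C₁, hC₁, hroot⟩ := root_poly (fun ζ => G (γ ζ)) (hga 0) hg0' D hD
  have e1 : ∀ᶠ ζ in 𝓝 (0:ℂ), ‖H (γ ζ)‖ < ‖G (γ ζ)‖ := by
    have h1 : ContinuousAt (fun ζ => ‖H (γ ζ)‖) 0 := (hHc.comp hγc).norm.continuousAt
    have h2 : ContinuousAt (fun ζ => ‖G (γ ζ)‖) 0 := (hGc.comp hγc).norm.continuousAt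
    exact h1.eventually_lt h2 (by show ‖H (γ 0)‖ < ‖G (γ 0)‖; rw [hγ0]; exact hHG)
  have e2 : ∀ᶠ ζ in 𝓝 (0:ℂ), ‖G (pr p)‖ / 2 < ‖G (γ ζ)‖ := by
    have h2 : ContinuousAt (fun ζ => ‖G (γ ζ)‖) 0 := (hGc.comp hγc).norm.continuousAt
    have h3 : ‖G (pr p)‖ / 2 < (fun ζ => ‖G (γ ζ)‖) 0 := by
      show ‖G (pr p)‖ / 2 < ‖G (γ 0)‖
      rw [hγ0]; linarith
    exact h2.eventually (lt_mem_nhds h3)
  set b : E (k + 2) := mk β (a₁ • tl p) with hb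
  set b' : E (k + 2) := mk β' (a₂ • tl p) with hb'
  have hb0 : b ≠ 0 := by
    intro h
    apply hβ
    rw [← pr_mk β (a₁ • tl p), ← hb, h]
    funext i
    fin_cases i <;> rfl
  have hprc : ∀ ζ : ℂ, pr (p + ζ • b + ζ ^ 2 • b') = γ ζ := by
    intro ζ
    rw [pr_curve, hb, hb', pr_mk, pr_mk]
  have htlc : ∀ ζ : ℂ, ‖tl (p + ζ • b + ζ ^ 2 • b')‖ = ‖1 + a₁ * ζ + a₂ * ζ ^ 2‖ * ‖tl p‖ := by
    intro ζ
    rw [tl_curve, hb, hb', tl_mk, tl_mk, ← norm_smul]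
    congr 1
    rw [smul_smul, smul_smul, add_smul, add_smul, one_smul, mul_comm a₁, mul_comm a₂]
  have hpt : ∀ᶠ ζ in 𝓝 (0:ℂ), w (p + ζ • b + ζ ^ 2 • b') ≤
      (D : ℝ)⁻¹ * Real.log ‖G (γ ζ)‖ + 0 +
        (D : ℝ)⁻¹ * (C₁ + 2 * |C| / ‖G (pr p)‖) * ‖ζ‖ ^ 3 := by
    filter_upwards [hC, hroot, e1, e2] with ζ h1 h2 h3 h4
    have hgz : 0 < ‖G (γ ζ)‖ := by linarith
    have hCt : C * ‖ζ‖ ^ 3 ≤ |C| * ‖ζ‖ ^ 3 :=
      mul_le_mul_of_nonneg_right (le_abs_self C) (by positivity)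
    set C₂ : ℝ := 2 * |C| / ‖G (pr p)‖ with hC₂
    have hC₂0 : 0 ≤ C₂ := by positivity
    have hz3 : 0 ≤ ‖ζ‖ ^ 3 := by positivity
    have hFle : ‖F (γ ζ)‖ ≤ ‖G (γ ζ)‖ * Real.exp (C₂ * ‖ζ‖ ^ 3) := by
      have h5 : F (γ ζ) = (F (γ ζ) - q0 * G (γ ζ)) + q0 * G (γ ζ) := by ring
      have h6 : ‖q0 * G (γ ζ)‖ ≤ ‖G (γ ζ)‖ := by
        rw [norm_mul]
        calc ‖q0‖ * ‖G (γ ζ)‖ ≤ 1 * ‖G (γ ζ)‖ := mul_le_mul_of_nonneg_right hq1 (norm_nonneg _)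
          _ = _ := one_mul _
      have h7 : ‖F (γ ζ)‖ ≤ |C| * ‖ζ‖ ^ 3 + ‖G (γ ζ)‖ := by
        rw [h5]
        refine (norm_add_le _ _).trans (add_le_add (le_trans h1 hCt) h6)
      have h8 : |C| * ‖ζ‖ ^ 3 ≤ ‖G (γ ζ)‖ * (C₂ * ‖ζ‖ ^ 3) := by
        have h9 : |C| * ‖ζ‖ ^ 3 = ‖G (pr p)‖ / 2 * (C₂ * ‖ζ‖ ^ 3) := by
          rw [hC₂]; field_simp
        rw [h9]
        exact mul_le_mul_of_nonneg_right h4.le (by positivity)
      have h10 := Real.add_one_le_exp (C₂ * ‖ζ‖ ^ 3)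
      calc ‖F (γ ζ)‖ ≤ ‖G (γ ζ)‖ * (C₂ * ‖ζ‖ ^ 3 + 1) := by rw [mul_add, mul_one]; linarith
        _ ≤ _ := mul_le_mul_of_nonneg_left h10 (norm_nonneg _)
    have hexp : Real.exp (C₂ * ‖ζ‖ ^ 3) ≤ Real.exp ((C₁ + C₂) * ‖ζ‖ ^ 3) :=
      Real.exp_le_exp.2 (mul_le_mul_of_nonneg_right (by linarith) hz3)
    have hexp' : Real.exp (C₁ * ‖ζ‖ ^ 3) ≤ Real.exp ((C₁ + C₂) * ‖ζ‖ ^ 3) :=
      Real.exp_le_exp.2 (mul_le_mul_of_nonneg_right (by linarith) hz3)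
    have hone : 1 ≤ Real.exp ((C₁ + C₂) * ‖ζ‖ ^ 3) := Real.one_le_exp (by positivity)
    have hall : max (max (max ‖F (γ ζ)‖ ‖G (γ ζ)‖) ‖H (γ ζ)‖)
        (‖tl (p + ζ • b + ζ ^ 2 • b')‖ ^ D) ≤
        ‖G (γ ζ)‖ * Real.exp ((C₁ + C₂) * ‖ζ‖ ^ 3) := by
      refine max_le (max_le (max_le ?_ ?_) ?_) ?_
      · exact hFle.trans (mul_le_mul_of_nonneg_left hexp (norm_nonneg _))
      · exact le_mul_of_one_le_right (norm_nonneg _) hone
      · exact h3.le.trans (le_mul_of_one_le_right (norm_nonneg _) hone)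
      · rw [htlc, mul_pow]
        have h11 : ‖1 + a₁ * ζ + a₂ * ζ ^ 2‖ ^ D * ‖tl p‖ ^ D ≤
            ‖1 + a₁ * ζ + a₂ * ζ ^ 2‖ ^ D * ‖G (γ 0)‖ := by
          rw [hγ0]
          exact mul_le_mul_of_nonneg_left htl (by positivity)
        exact (h11.trans h2.2).trans (mul_le_mul_of_nonneg_left hexp' (norm_nonneg _))
    have hlog : Real.log (max (max (max ‖F (γ ζ)‖ ‖G (γ ζ)‖) ‖H (γ ζ)‖)
        (‖tl (p + ζ • b + ζ ^ 2 • b')‖ ^ D)) ≤
        Real.log ‖G (γ ζ)‖ + (C₁ + C₂) * ‖ζ‖ ^ 3 := by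
      have h12 := Real.log_le_log (lt_of_lt_of_le hgz (by
        exact ((le_max_right _ _).trans (le_max_left _ _)).trans (le_max_left _ _))) hall
      rw [Real.log_mul hgz.ne' (Real.exp_pos _).ne', Real.log_exp] at h12
      exact h12
    have hD' : (0 : ℝ) ≤ (D : ℝ)⁻¹ := by positivity
    have h13 := mul_le_mul_of_nonneg_left hlog hD'
    rw [hw, hprc]
    refine h13.trans (le_of_eq ?_)
    ring
  have hwp : w p = (D : ℝ)⁻¹ * Real.log ‖G (γ 0)‖ + 0 := by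
    rw [hw p, hγ0, max_eq_right hFG, max_eq_left hHG.le, max_eq_left htl, add_zero]
  exact no_touch g hg p hp η hη w (Filter.Eventually.of_forall fun x => hwc.continuousAt) hmax
    b b' hb0 _ (mean_le_of_pointwise w hwc p b b' (fun ζ => G (γ ζ)) hga hg0' _ _ _ hwp hpt)

theorem roles_tail (M : Pool.Agent.Bl169.E → ℝ) (hM : Continuous M) (hMpos : ∀ x, 0 < M x)
    (D : ℕ) (w : E (k + 2) → ℝ) (hwc : Continuous w)
    (hw : ∀ x, w x = (D : ℝ)⁻¹ * Real.log (max (M (pr x)) (‖tl x‖ ^ D)))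
    (g : E (k + 2) → ℝ) (hg : ContDiff ℝ 2 g) (p : E (k + 2))
    (hp : ∃ r > 0, ∀ b : E (k + 2), ‖b‖ ≤ r → g p ≤ cm g p b) (η : ℝ) (hη : 0 < η)
    (hmax : ∀ᶠ x in 𝓝 p, g x + η * (∑ i, ‖x i‖ ^ 2) - w x ≤
        g p + η * (∑ i, ‖p i‖ ^ 2) - w p)
    (htl : M (pr p) < ‖tl p‖ ^ D) : False := by
  set b : E (k + 2) := mk (fun _ => 1) 0 with hb
  have hb0 : b ≠ 0 := by
    intro h
    have h1 := congrFun h 0
    exact one_ne_zero (α := ℂ) h1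
  have htlb : tl b = 0 := by rw [hb, tl_mk]
  have htlc : ∀ ζ : ℂ, tl (p + ζ • b + ζ ^ 2 • (0 : E (k + 2))) = tl p := by
    intro ζ
    rw [tl_curve, htlb]
    have : tl (0 : E (k + 2)) = 0 := rfl
    rw [this, smul_zero, smul_zero, add_zero, add_zero]
  have hpt : ∀ᶠ ζ in 𝓝 (0:ℂ), w (p + ζ • b + ζ ^ 2 • (0 : E (k + 2))) ≤
      0 * Real.log ‖(fun _ : ℂ => (1 : ℂ)) ζ‖ + w p + 0 * ‖ζ‖ ^ 3 := by
    have h1 : ContinuousAt (fun ζ : ℂ => M (pr (p + ζ • b + ζ ^ 2 • (0 : E (k + 2))))) 0 := by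
      have h2 : Continuous fun ζ : ℂ => p + ζ • b + ζ ^ 2 • (0 : E (k + 2)) := by fun_prop
      exact (hM.comp (cont_pr.comp h2)).continuousAt
    have h3 : ∀ᶠ ζ in 𝓝 (0:ℂ), M (pr (p + ζ • b + ζ ^ 2 • (0 : E (k + 2)))) < ‖tl p‖ ^ D := by
      refine h1.eventually (gt_mem_nhds ?_)
      simpa using htl
    filter_upwards [h3] with ζ h4
    rw [zero_mul, zero_mul, zero_add, add_zero, hw, hw, htlc, max_eq_right h4.le,
      max_eq_right htl.le]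
  exact no_touch g hg p hp η hη w (Filter.Eventually.of_forall fun x => hwc.continuousAt) hmax
    b 0 hb0 _ (mean_le_of_pointwise w hwc p b 0 (fun _ => 1) (fun _ => analyticAt_const)
      one_ne_zero 0 (w p) 0 (by simp) hpt)

/-- no psh function crosses `D⁻¹ log max (|F|, |G|, |H|, |x_i| ^ D)` from outside a compact set -/
theorem maximal_n (U : Set (E (k + 2))) (hU : IsOpen U) (F G H : Pool.Agent.Bl169.E → ℂ)
    (hF : ∀ x, AnalyticAt ℂ F x)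
    (hG : ∀ x, AnalyticAt ℂ G x) (hH : ∀ x, AnalyticAt ℂ H x)
    (hpos : ∀ x, 0 < max (max ‖F x‖ ‖G x‖) ‖H x‖)
    (hno : ∀ x ∈ U, ¬ (‖F (pr x)‖ = ‖G (pr x)‖ ∧ ‖G (pr x)‖ = ‖H (pr x)‖))
    (D : ℕ) (hD : 0 < D) (w : E (k + 2) → ℝ)
    (hw : ∀ x, w x = (D : ℝ)⁻¹ * Real.log (max (max (max ‖F (pr x)‖ ‖G (pr x)‖) ‖H (pr x)‖)
      (‖tl x‖ ^ D)))
    (v : E (k + 2) → EReal) (hv : FPsh U v) (K : Set (E (k + 2))) (hK : IsCompact K) (hKU : K ⊆ U)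
    (hvw : ∀ x ∈ U \ K, v x ≤ ((w x : ℝ) : EReal)) :
    ∀ x ∈ U, v x ≤ ((w x : ℝ) : EReal) := by
  by_contra hcon
  push Not at hcon
  obtain ⟨x₁, hx₁, hgt⟩ := hcon
  have hFc : Continuous F := continuous_iff_continuousAt.2 fun x => (hF x).continuousAt
  have hGc : Continuous G := continuous_iff_continuousAt.2 fun x => (hG x).continuousAt
  have hHc : Continuous H := continuous_iff_continuousAt.2 fun x => (hH x).continuousAt
  have hMc : Continuous fun x => max (max ‖F x‖ ‖G x‖) ‖H x‖ := (hFc.norm.max hGc.norm).max hHc.norm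
  have hwc : Continuous w := by
    have he : w = fun x => (D : ℝ)⁻¹ * Real.log (max (max (max ‖F (pr x)‖ ‖G (pr x)‖) ‖H (pr x)‖)
      (‖tl x‖ ^ D)) := funext hw
    rw [he]
    refine continuous_const.mul (Continuous.log ?_ fun x => (lt_max_of_lt_left (hpos _)).ne')
    exact (hMc.comp cont_pr).max (cont_tl.norm.pow _)
  obtain ⟨g, η, p, hη, hpU, hg, hsub, hmax⟩ :=
    exists_touch U hU v hv w hwc.continuousOn K hK hKU hvw x₁ hx₁ hgt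
  have hne := hno p hpU
  rcases lt_or_ge (max (max ‖F (pr p)‖ ‖G (pr p)‖) ‖H (pr p)‖) (‖tl p‖ ^ D) with htl | htl
  · exact roles_tail (fun x => max (max ‖F x‖ ‖G x‖) ‖H x‖) hMc hpos D w hwc hw g hg p hsub η hη
      hmax htl
  rcases le_total ‖F (pr p)‖ ‖G (pr p)‖ with h1 | h1
  · rcases le_total ‖H (pr p)‖ ‖G (pr p)‖ with h2 | h2
    · -- G is maximal
      rcases h2.lt_or_eq with h3 | h3
      · exact roles F G H hF hG hH D hD w hwc hw g hg p hsub η hη hmax htl h1 h3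
      · rcases h1.lt_or_eq with h4 | h4
        · refine roles H G F hH hG hF D hD w hwc (fun x => ?_) g hg p hsub η hη hmax ?_ h2 h4
          · rw [hw x, Pool.Agent.Bl169.maximal_mx1 ‖F (pr x)‖ ‖G (pr x)‖ ‖H (pr x)‖]
          · rw [← Pool.Agent.Bl169.maximal_mx1 ‖F (pr p)‖ ‖G (pr p)‖ ‖H (pr p)‖]; exact htl
        · exact hne ⟨h4, h3.symm⟩
    · -- H is maximal
      rcases h2.lt_or_eq with h3 | h3
      · refine roles F H G hF hH hG D hD w hwc (fun x => ?_) g hg p hsub η hη hmax ?_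
          (h1.trans h2) h3
        · rw [hw x, max_right_comm ‖F (pr x)‖]
        · rw [max_right_comm ‖F (pr p)‖]; exact htl
      · rcases h1.lt_or_eq with h4 | h4
        · refine roles G H F hG hH hF D hD w hwc (fun x => ?_) g hg p hsub η hη hmax ?_ h2
            (h4.trans_le h2)
          · rw [hw x, Pool.Agent.Bl169.maximal_mx4 ‖F (pr x)‖ ‖G (pr x)‖ ‖H (pr x)‖]
          · rw [← Pool.Agent.Bl169.maximal_mx4 ‖F (pr p)‖ ‖G (pr p)‖ ‖H (pr p)‖]; exact htl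
        · exact hne ⟨h4, h3⟩
  · rcases le_total ‖H (pr p)‖ ‖F (pr p)‖ with h2 | h2
    · -- F is maximal
      rcases h2.lt_or_eq with h3 | h3
      · refine roles G F H hG hF hH D hD w hwc (fun x => ?_) g hg p hsub η hη hmax ?_ h1 h3
        · rw [hw x, max_comm ‖F (pr x)‖ ‖G (pr x)‖]
        · rw [max_comm ‖G (pr p)‖ ‖F (pr p)‖]; exact htl
      · rcases h1.lt_or_eq with h4 | h4
        · refine roles H F G hH hF hG D hD w hwc (fun x => ?_) g hg p hsub η hη hmax ?_ h2 h4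
          · rw [hw x, Pool.Agent.Bl169.maximal_mx5 ‖F (pr x)‖ ‖G (pr x)‖ ‖H (pr x)‖]
          · rw [← Pool.Agent.Bl169.maximal_mx5 ‖F (pr p)‖ ‖G (pr p)‖ ‖H (pr p)‖]; exact htl
        · exact hne ⟨h4.symm, h4.trans h3.symm⟩
    · -- H is maximal
      rcases h2.lt_or_eq with h3 | h3
      · refine roles G H F hG hH hF D hD w hwc (fun x => ?_) g hg p hsub η hη hmax ?_
          (h1.trans h2) h3
        · rw [hw x, Pool.Agent.Bl169.maximal_mx4 ‖F (pr x)‖ ‖G (pr x)‖ ‖H (pr x)‖]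
        · rw [← Pool.Agent.Bl169.maximal_mx4 ‖F (pr p)‖ ‖G (pr p)‖ ‖H (pr p)‖]; exact htl
      · rcases h1.lt_or_eq with h4 | h4
        · refine roles F H G hF hH hG D hD w hwc (fun x => ?_) g hg p hsub η hη hmax ?_ h2
            (h4.trans_le h2)
          · rw [hw x, max_right_comm ‖F (pr x)‖]
          · rw [max_right_comm ‖F (pr p)‖]; exact htl
        · exact hne ⟨h4.symm, h4.trans h3⟩

end Pool.Agent.KS6_20.PS
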